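import Pool.Agent.Helper46.D4.Stmts
import Pool.Agent.Helper74.D4.P
import Pool.Agent.Helper76.D4.Base

/-!
# `b dh ∧ dφ / φ` is regular on the algebra of quotients (MP_e1889a_ag, block B~)
-/

set_option autoImplicit false

namespace Pool.Agent.Helper14.D4

open Module Filter Topology Polynomial Pool.Agent.Helper37.SD Pool.Agent.Helper20.TS
  Pool.Agent.Helper88.D4 Pool.Agent.Helper46.D4 Pool.Agent.Helper76.D4

theorem der_div_pow {K : Type} [Field K] [Algebra ℂ K] (D : Derivation ℂ K K) {φ : K}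
    (h0 : φ ≠ 0) (hD : D φ = 0) (y : K) (l : ℕ) : D (y / φ ^ l) = D y / φ ^ l := by
  have h1 : D (φ ^ l) = 0 := by rw [Derivation.leibniz_pow, hD, smul_zero, smul_zero]
  have h2 : φ ^ l ≠ 0 := pow_ne_zero l h0
  have h3 : D y = D (y / φ ^ l * φ ^ l) := by rw [div_mul_cancel₀ _ h2]
  rw [h3, Derivation.leibniz, h1, smul_zero, zero_add, smul_eq_mul, mul_div_cancel_left₀ _ h2]

theorem der_mul_pow {K : Type} [Field K] [Algebra ℂ K] (D : Derivation ℂ K K) {h : K}
    (hD : D h = 0) (y : K) (l : ℕ) : D (y * h ^ l) = D y * h ^ l := by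
  have h1 : D (h ^ l) = 0 := by rw [Derivation.leibniz_pow, hD, smul_zero, smul_zero]
  rw [Derivation.leibniz, h1, smul_zero, zero_add, smul_eq_mul, mul_comm]

theorem s_AL : S_AL := by
  intro K _ _ R ξ J a hC α b h hα hreg φ j hφ h0
  have hA : IsAlt J := hC.alt
  have key : ∀ y ∈ R, ∀ z ∈ R, ∀ w ∈ R, b * J h y z w ∈ R := by
    intro y hy z hz w hw
    have h1 : Pres R (J w y z) := fun x hx => hC.reg x hx w hw y hy z hz
    have h2 := hreg _ h1
    rw [hα] at h2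
    rw [sw14 hA h y z w, mul_neg]
    exact R.neg_mem h2
  have core : ∀ y ∈ slopeAlg R h φ j hφ h0, ∀ z ∈ slopeAlg R h φ j hφ h0,
      b * J h y z φ / φ ∈ slopeAlg R h φ j hφ h0 := by
    rintro _ ⟨l, y, ⟨hy, hy'⟩, rfl⟩ _ ⟨n, z, ⟨hz, hz'⟩, rfl⟩
    refine ⟨l + n + 1, b * J h y z φ, ⟨key y hy z hz φ hφ.1, ?_⟩, ?_⟩
    · have h1 := key _ hy' _ hz' _ hφ.2
      have e1 : J h (y * h ^ (j * l)) (z * h ^ (j * n)) (φ * h ^ j) =
          J h (y * h ^ (j * l)) (z * h ^ (j * n)) φ * h ^ j :=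
        der_mul_pow _ (eq14 hA h _ _) φ j
      have e2 : J h (y * h ^ (j * l)) (z * h ^ (j * n)) φ =
          J h (y * h ^ (j * l)) z φ * h ^ (j * n) := by
        rw [sw34 hA, der_mul_pow _ (eq14 hA h _ _), ← neg_mul, ← sw34 hA]
      have e3 : J h (y * h ^ (j * l)) z φ = J h y z φ * h ^ (j * l) := by
        rw [sw24 hA, der_mul_pow _ (eq14 hA h _ _), ← neg_mul, ← sw24 hA]
      rw [e1, e2, e3] at h1
      convert h1 using 1
      rw [mul_add, mul_add, pow_add, pow_add, mul_one]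
      ring
    · have e2 : J h (y / φ ^ l) (z / φ ^ n) φ = J h (y / φ ^ l) z φ / φ ^ n := by
        rw [sw34 hA, der_div_pow _ h0 (eq34 hA h _ _), ← neg_div, ← sw34 hA]
      have e3 : J h (y / φ ^ l) z φ = J h y z φ / φ ^ l := by
        rw [sw24 hA, der_div_pow _ h0 (eq24 hA h _ _), ← neg_div, ← sw24 hA]
      rw [e2, e3, pow_succ, pow_add]
      field_simp
  have hsw : ∀ y z, (-(b / φ) • J h φ z) y = b * J h y z φ / φ := by
    intro y z
    rw [Derivation.smul_apply, smul_eq_mul, sw24 hA h y z φ]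
    ring
  have hsw' : ∀ y z, (-(b / φ) • J h y φ) z = b * J h y z φ / φ := by
    intro y z
    rw [Derivation.smul_apply, smul_eq_mul, sw34 hA h y z φ]
    ring
  have h1 : ∀ y ∈ Ah (slopeAlg R h φ j hφ h0) h, ∀ z ∈ slopeAlg R h φ j hφ h0,
      b * J h y z φ / φ ∈ Ah (slopeAlg R h φ j hφ h0) h := by
    intro y hy z hz
    rw [← hsw]
    refine Pool.Agent.Helper74.D4.der_ah _ ?_ (fun x hx => ?_) hy
    · rw [Derivation.smul_apply, eq14 hA, smul_zero]
    · rw [hsw]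
      exact Pool.Agent.Helper74.D4.le_ah (core x hx z hz)
  intro y hy z hz
  rw [← hsw']
  refine Pool.Agent.Helper74.D4.der_ah _ ?_ (fun x hx => ?_) hz
  · rw [Derivation.smul_apply, eq14 hA, smul_zero]
  · rw [hsw']
    exact h1 y hy x hx

end Pool.Agent.Helper14.D4
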