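import Pool.Agent.Helper46.D4.Stmts

/-!
# Degrees in the algebra of quotients (MP_e1889a_ag, block B~)
-/

set_option autoImplicit false

namespace Pool.Agent.Helper14.D4

open Module Filter Topology Polynomial Pool.Agent.Helper37.SD Pool.Agent.Helper20.TS
  Pool.Agent.Helper88.D4 Pool.Agent.Helper46.D4

theorem eig_div {K : Type} [Field K] [Algebra ℂ K] (ξ : Derivation ℂ K K) {x y : K} {a b : ℝ}
    (hy : y ≠ 0) (h1 : ξ x = (a : ℂ) • x) (h2 : ξ y = (b : ℂ) • y) :
    ξ (x / y) = ((a - b : ℝ) : ℂ) • (x / y) := by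
  have h3 : x = x / y * y := (div_mul_cancel₀ x hy).symm
  have h4 : ξ x = (x / y) * ξ y + y * ξ (x / y) := by
    conv_lhs => rw [h3]
    rw [Derivation.leibniz, smul_eq_mul, smul_eq_mul]
  rw [h1, h2, Algebra.smul_def, Algebra.smul_def] at h4
  rw [Algebra.smul_def, Complex.ofReal_sub, map_sub]
  have h5 : y * ξ (x / y) = (algebraMap ℂ K a) * x - x / y * ((algebraMap ℂ K b) * y) := by
    rw [h4]
    ring
  have h6 : ξ (x / y) = ((algebraMap ℂ K a) * x - x / y * ((algebraMap ℂ K b) * y)) / y := by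
    rw [← h5, mul_div_cancel_left₀ _ hy]
  rw [h6]
  field_simp

theorem s_SP : S_SP := by
  intro K _ _ R ξ hR h φ j δ hh o x hx
  obtain ⟨l, y, ⟨hy, hy'⟩, rfl⟩ := hx
  obtain ⟨f, hf⟩ := exists_dec (hR.span y hy)
  obtain ⟨g, hg⟩ := exists_dec (hR.span _ hy')
  have hp : ξ (h ^ (j * l)) = 0 := by
    rw [Derivation.leibniz_pow, hh, smul_zero, smul_zero]
  have hf' : IsDec (ξ : K →ₗ[ℂ] K) ⊤ (fun _ => True)
      (f.mapRange (· * h ^ (j * l)) (zero_mul _)) (y * h ^ (j * l)) := by
    refine ⟨fun c => ?_, fun c => Submodule.mem_top, fun c _ => trivial, ?_⟩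
    · rw [Finsupp.mapRange_apply]
      show ξ (f c * h ^ (j * l)) = _
      rw [Derivation.leibniz, hp, smul_zero, zero_add, smul_eq_mul]
      have h1 : ξ (f c) = (c : ℂ) • f c := hf.eig c
      rw [h1, mul_smul_comm, mul_comm]
    · rw [Finsupp.sum_mapRange_index (fun _ => rfl), Finsupp.sum, ← Finset.sum_mul]
      congr 1
      exact hf.sum
  have hfg : ∀ c, f c * h ^ (j * l) ∈ R := by
    intro c
    have h1 := hf'.unique hg
    have h2 : f c * h ^ (j * l) = g c := by rw [← h1, Finsupp.mapRange_apply]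
    rw [h2]
    exact hg.mem c
  have hs : y / φ ^ l = ∑ c ∈ f.support, f c / φ ^ l := by
    rw [← Finset.sum_div]
    congr 1
    exact hf.sum.symm
  rw [hs]
  refine Submodule.sum_mem _ fun c hc => ?_
  have hc0 := Finsupp.mem_support_iff.mp hc
  have h1 : ξ (f c) = (c : ℂ) • f c := hf.eig c
  refine Submodule.subset_span ⟨⟨l, f c, ⟨hf.mem c, hfg c⟩, rfl⟩, c - l * δ, ?_, ?_⟩
  · have h2 := o.opt (f c) c (j * l) ⟨hf.mem c, hfg c⟩ hc0 h1
    have h3 : (0 : ℝ) < j := by exact_mod_cast o.jpos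
    push_cast at h2
    have h4 : (δ * l) * j ≤ c * j := by
      calc (δ * l) * j = δ * (j * l) := by ring
        _ ≤ c * j := h2
    have h5 := le_of_mul_le_mul_right h4 h3
    linarith
  · have h6 : φ ^ l ≠ 0 := pow_ne_zero l o.ne
    have h7 : ξ (φ ^ l) = ((l * δ : ℝ) : ℂ) • φ ^ l := by
      rw [Derivation.leibniz_pow, o.deg, smul_eq_mul, mul_smul_comm]
      rcases Nat.eq_zero_or_pos l with h0 | h0
      · subst h0
        simp
      · rw [← pow_succ, Nat.sub_add_cancel h0, ← Nat.cast_smul_eq_nsmul ℂ l, smul_smul]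
        push_cast
        rfl
    exact eig_div ξ h6 h1 h7

theorem zero_of_adjoin {K : Type} [Field K] [Algebra ℂ K] (ξ : Derivation ℂ K K) {h : K}
    (hh : ξ h = 0) {x : K} (hx : x ∈ IntermediateField.adjoin ℂ {h}) : ξ x = 0 := by
  induction hx using IntermediateField.adjoin_induction with
  | mem x hx =>
    rw [Set.mem_singleton_iff.mp hx]
    exact hh
  | algebraMap z => exact ξ.map_algebraMap z
  | add x y _ _ hx hy => rw [map_add, hx, hy, add_zero]
  | inv x _ hx => rw [Derivation.leibniz_inv, hx, smul_zero]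
  | mul x y _ _ hx hy => rw [Derivation.leibniz, hx, hy, smul_zero, smul_zero, add_zero]

/-- The span of the homogeneous elements whose degree satisfies `P`. -/
abbrev KH {K : Type} [Field K] [Algebra ℂ K] (ξ : Derivation ℂ K K) (P : ℝ → Prop) :
    Submodule ℂ K := Hsp (ξ : K →ₗ[ℂ] K) ⊤ P

theorem kh_mul {K : Type} [Field K] [Algebra ℂ K] (ξ : Derivation ℂ K K) {P Q S : ℝ → Prop}
    (hPQ : ∀ a b, P a → Q b → S (a + b)) {x y : K} (hx : x ∈ KH ξ P) (hy : y ∈ KH ξ Q) :
    x * y ∈ KH ξ S := by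
  induction hx using Submodule.span_induction with
  | mem x hx =>
    obtain ⟨-, a, ha, h1⟩ := hx
    induction hy using Submodule.span_induction with
    | mem y hy =>
      obtain ⟨-, b, hb, h2⟩ := hy
      have h1 : ξ x = (a : ℂ) • x := h1
      have h2 : ξ y = (b : ℂ) • y := h2
      refine mem_hsp (c := a + b) Submodule.mem_top (hPQ a b ha hb) ?_
      show ξ (x * y) = _
      rw [Derivation.leibniz, h1, h2, smul_eq_mul, smul_eq_mul, mul_smul_comm, mul_smul_comm,
        mul_comm y x, ← add_smul, Complex.ofReal_add, add_comm]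
    | zero =>
      rw [mul_zero]
      exact Submodule.zero_mem _
    | add y z _ _ hy hz =>
      rw [mul_add]
      exact Submodule.add_mem _ hy hz
    | smul z y _ hy =>
      rw [mul_smul_comm]
      exact Submodule.smul_mem _ _ hy
  | zero =>
    rw [zero_mul]
    exact Submodule.zero_mem _
  | add x z _ _ hx hz =>
    rw [add_mul]
    exact Submodule.add_mem _ hx hz
  | smul z x _ hx =>
    rw [smul_mul_assoc]
    exact Submodule.smul_mem _ _ hx

theorem kh_of_Ah {K : Type} [Field K] [Algebra ℂ K] {A : Subalgebra ℂ K} {ξ : Derivation ℂ K K}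
    {h : K} (hh : ξ h = 0)
    (hA : ∀ x ∈ A, x ∈ Submodule.span ℂ {y | y ∈ A ∧ ∃ c : ℝ, 0 ≤ c ∧ ξ y = (c : ℂ) • y})
    {x : K} (hx : x ∈ Ah A h) : x ∈ KH ξ (fun c => 0 ≤ c) := by
  rw [Ah, Algebra.sup_def] at hx
  induction hx using Algebra.adjoin_induction with
  | mem x hx =>
    rcases hx with hx | hx
    · refine Submodule.span_mono ?_ (hA x hx)
      rintro y ⟨-, c, hc, h1⟩
      exact ⟨Submodule.mem_top, c, hc, h1⟩
    · refine mem_hsp (c := 0) Submodule.mem_top le_rfl ?_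
      show ξ x = _
      rw [zero_of_adjoin ξ hh hx, Complex.ofReal_zero, zero_smul]
  | algebraMap z =>
    refine mem_hsp (c := 0) Submodule.mem_top le_rfl ?_
    show ξ _ = _
    rw [ξ.map_algebraMap, Complex.ofReal_zero, zero_smul]
  | add x y _ _ hx hy => exact Submodule.add_mem _ hx hy
  | mul x y _ _ hx hy => exact kh_mul ξ (fun a b ha hb => add_nonneg ha hb) hx hy

theorem kh_pow {K : Type} [Field K] [Algebra ℂ K] (ξ : Derivation ℂ K K) {x : K} {γ : ℝ}
    (hx : ξ x = (γ : ℂ) • x) (n : ℕ) : ξ (x ^ n) = ((n * γ : ℝ) : ℂ) • x ^ n := by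
  rw [Derivation.leibniz_pow, hx, smul_eq_mul, mul_smul_comm]
  rcases Nat.eq_zero_or_pos n with h0 | h0
  · subst h0
    simp
  · rw [← pow_succ, Nat.sub_add_cancel h0, ← Nat.cast_smul_eq_nsmul ℂ n, smul_smul]
    push_cast
    rfl

theorem s_NI : S_NI := by
  intro K _ _ A ξ h hh hA x γ hx0 hx hγ hint
  obtain ⟨p, hp, he⟩ := hint
  have h1 : x ^ p.natDegree = - ∑ i ∈ Finset.range p.natDegree, (p.coeff i : K) * x ^ i := by
    rw [eval₂_eq_sum_range, Finset.sum_range_succ, Monic.coeff_natDegree hp, map_one, one_mul]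
      at he
    rw [eq_neg_iff_add_eq_zero, add_comm]
    exact he
  have h2 : x ^ p.natDegree ∈ KH ξ (fun c => (p.natDegree : ℝ) * γ < c) := by
    rw [h1]
    refine Submodule.neg_mem _ (Submodule.sum_mem _ fun i hi => ?_)
    have hi' : (i : ℝ) < p.natDegree := by exact_mod_cast Finset.mem_range.mp hi
    refine kh_mul ξ (P := fun c => 0 ≤ c) (Q := fun c => c = i * γ) ?_
      (kh_of_Ah hh hA (p.coeff i).2) (mem_hsp Submodule.mem_top rfl (kh_pow ξ hx i))
    rintro a b ha rfl
    have := mul_lt_mul_of_neg_right hi' hγ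
    linarith
  exact lt_irrefl _ (prop_of_mem_hsp (pow_ne_zero _ hx0) (kh_pow ξ hx _) h2)

end Pool.Agent.Helper14.D4
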