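import Pool.Agent.Helper14.D4.Deg

/-!
# Homogeneous generators of the symbolic algebra (MP_e1889a_ag, block B~)
-/

set_option autoImplicit false

namespace Pool.Agent.Helper14.D4

open Module Filter Topology Polynomial Pool.Agent.Helper37.SD Pool.Agent.Helper20.TS
  Pool.Agent.Helper88.D4 Pool.Agent.Helper46.D4

/-- The components of an element of `Sj R h i` are in `Sj R h i`. -/
theorem sj_dec {K : Type} [Field K] [Algebra ℂ K] {R : Subalgebra ℂ K} {ξ : Derivation ℂ K K}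
    (hR : IsCone R ξ) {h : K} (hh : ξ h = 0) (i : ℕ) {y : K} (hy : y ∈ Sj R h i) :
    y ∈ Hsp (ξ : K →ₗ[ℂ] K) (Sj R h i) (fun c => 0 ≤ c) := by
  obtain ⟨hy, hy'⟩ := hy
  obtain ⟨f, hf⟩ := exists_dec (hR.span y hy)
  obtain ⟨g, hg⟩ := exists_dec (hR.span _ hy')
  have hp : ξ (h ^ i) = 0 := by
    rw [Derivation.leibniz_pow, hh, smul_zero, smul_zero]
  have hf' : IsDec (ξ : K →ₗ[ℂ] K) ⊤ (fun _ => True)
      (f.mapRange (· * h ^ i) (zero_mul _)) (y * h ^ i) := by
    refine ⟨fun c => ?_, fun c => Submodule.mem_top, fun c _ => trivial, ?_⟩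
    · rw [Finsupp.mapRange_apply]
      show ξ (f c * h ^ i) = _
      rw [Derivation.leibniz, hp, smul_zero, zero_add, smul_eq_mul]
      have h1 : ξ (f c) = (c : ℂ) • f c := hf.eig c
      rw [h1, mul_smul_comm, mul_comm]
    · rw [Finsupp.sum_mapRange_index (fun _ => rfl), Finsupp.sum, ← Finset.sum_mul]
      congr 1
      exact hf.sum
  have hfg : ∀ c, f c * h ^ i ∈ R := by
    intro c
    have h1 := hf'.unique hg
    have h2 : f c * h ^ i = g c := by rw [← h1, Finsupp.mapRange_apply]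
    rw [h2]
    exact hg.mem c
  exact (IsDec.mem_hsp (W := Sj R h i) ⟨hf.eig, fun c => ⟨hf.mem c, hfg c⟩, hf.prop, hf.sum⟩)

/-- The homogeneous elements of `Sym R h`. -/
def HG {K : Type} [Field K] [Algebra ℂ K] (R : Subalgebra ℂ K) (ξ : Derivation ℂ K K) (h : K) :
    Set K[X] :=
  {Q | ∃ (x : K) (i : ℕ) (γ : ℝ), (x ∈ Sj R h i ∧ x ≠ 0 ∧ ξ x = (γ : ℂ) • x) ∧ Q = C x * X ^ i}

theorem hg_sub {K : Type} [Field K] [Algebra ℂ K] {R : Subalgebra ℂ K} {ξ : Derivation ℂ K K}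
    {h : K} : HG R ξ h ⊆ (Sym R h : Set K[X]) := by
  rintro _ ⟨x, i, γ, ⟨hx, -, -⟩, rfl⟩ j
  rw [coeff_C_mul_X_pow]
  split_ifs with hj
  · rw [hj]
    exact hx
  · exact Submodule.zero_mem _

theorem mem_span_hg {K : Type} [Field K] [Algebra ℂ K] {R : Subalgebra ℂ K}
    {ξ : Derivation ℂ K K} (hR : IsCone R ξ) {h : K} (hh : ξ h = 0) {P : K[X]}
    (hP : P ∈ Sym R h) : P ∈ Submodule.span ℂ (HG R ξ h) := by
  rw [P.as_sum_support_C_mul_X_pow]
  refine Submodule.sum_mem _ fun i _ => ?_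
  have h1 := sj_dec hR hh i (hP i)
  generalize P.coeff i = w at h1
  induction h1 using Submodule.span_induction with
  | mem x hx =>
    obtain ⟨hx, c, -, h2⟩ := hx
    by_cases h0 : x = 0
    · rw [h0, map_zero, zero_mul]
      exact Submodule.zero_mem _
    · exact Submodule.subset_span ⟨x, i, c, ⟨hx, h0, h2⟩, rfl⟩
  | zero =>
    rw [map_zero, zero_mul]
    exact Submodule.zero_mem _
  | add x y _ _ hx hy =>
    rw [map_add, add_mul]
    exact Submodule.add_mem _ hx hy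
  | smul z x _ hx =>
    have h2 : C (z • x) * X ^ i = z • (C x * X ^ i) := by
      rw [← smul_C, smul_mul_assoc]
    rw [h2]
    exact Submodule.smul_mem _ _ hx

theorem s_G1 : S_G1 := by
  classical
  intro K _ _ R ξ hR h hh hfg
  obtain ⟨S, hS⟩ := hfg
  have h1 : ∀ P : S, ∃ T : Finset K[X], (T : Set K[X]) ⊆ HG R ξ h ∧
      (P : K[X]) ∈ Submodule.span ℂ (T : Set K[X]) := by
    intro P
    refine Submodule.mem_span_finite_of_mem_span (mem_span_hg hR hh ?_)
    rw [← hS]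
    exact Algebra.subset_adjoin P.2
  choose T hT hT' using h1
  set U : Finset K[X] := Finset.univ.biUnion T with hU
  have hUG : ∀ Q : U, (Q : K[X]) ∈ HG R ξ h := by
    intro Q
    obtain ⟨P, -, hP⟩ := Finset.mem_biUnion.mp Q.2
    exact hT P hP
  choose x i γ hx hQ using hUG
  have hr : (Set.range fun k => C (x (U.equivFin.symm k)) * X ^ i (U.equivFin.symm k)) =
      (U : Set K[X]) := by
    ext Q
    constructor
    · rintro ⟨k, rfl⟩
      show C (x (U.equivFin.symm k)) * X ^ i (U.equivFin.symm k) ∈ (U : Set K[X])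
      rw [← hQ]
      exact (U.equivFin.symm k).2
    · intro hQ'
      refine ⟨U.equivFin ⟨Q, hQ'⟩, ?_⟩
      show C (x (U.equivFin.symm (U.equivFin ⟨Q, hQ'⟩))) *
        X ^ i (U.equivFin.symm (U.equivFin ⟨Q, hQ'⟩)) = Q
      rw [Equiv.symm_apply_apply, ← hQ]
  refine ⟨U.card, fun k => x (U.equivFin.symm k), fun k => i (U.equivFin.symm k),
    fun k => γ (U.equivFin.symm k), fun k => hx _, ?_⟩
  rw [hr]
  refine le_antisymm ?_ ?_
  · rw [← hS]
    refine Algebra.adjoin_le fun P hP => ?_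
    have h2 := hT' ⟨P, hP⟩
    have h3 : Submodule.span ℂ (T ⟨P, hP⟩ : Set K[X]) ≤
        Subalgebra.toSubmodule (Algebra.adjoin ℂ (U : Set K[X])) := by
      refine Submodule.span_le.mpr fun Q hQ1 => Algebra.subset_adjoin ?_
      exact Finset.mem_biUnion.mpr ⟨⟨P, hP⟩, Finset.mem_univ _, hQ1⟩
    exact h3 h2
  · refine Algebra.adjoin_le fun Q hQ1 => hg_sub (ξ := ξ) ?_
    obtain ⟨P, -, hP⟩ := Finset.mem_biUnion.mp hQ1
    exact hT P hP

end Pool.Agent.Helper14.D4
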