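import Pool.Agent.Helper14.D4.Sd
import Pool.Agent.Helper20.D4.RDefs

/-!
# Generators of the Cox algebra which are homogeneous for the torus (MP_e1889a_ag, S_RES)
-/

set_option autoImplicit false

namespace Pool.Agent.Helper14.D4

open Module Pool.Agent.Helper37.SD Pool.Agent.Helper20.TS Pool.Agent.Helper88.D4
  Pool.Agent.Helper20.D4

variable {K K' : Type} [Field K] [Algebra ℂ K] [Field K'] [Algebra ℂ K'] [Algebra K K'] {p : ℕ}

omit [Algebra ℂ K'] in
theorem mon_zero' (t : Fin p → K') : mon t 0 = 1 := by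
  rw [mon]
  simp

omit [Algebra ℂ K'] in
/-- A monomial of monomials. -/
theorem mon_prod {t : Fin p → K'} (ht : ∀ i, t i ≠ 0) {N : ℕ} (m : Fin N → Fin p → ℤ)
    (a : Fin N → ℕ) {n : Fin p → ℤ} (hn : ∀ i, ∑ l, (a l : ℤ) * m l i = n i) :
    mon t n = ∏ l, mon t (m l) ^ a l := by
  simp only [mon]
  have h1 : ∀ l, (∏ i, t i ^ m l i) ^ a l = ∏ i, t i ^ ((a l : ℤ) * m l i) := by
    intro l
    rw [← Finset.prod_pow]
    refine Finset.prod_congr rfl fun i _ => ?_
    rw [← zpow_natCast, ← zpow_mul, mul_comm]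
  rw [Finset.prod_congr rfl fun l _ => h1 l, Finset.prod_comm]
  refine Finset.prod_congr rfl fun i _ => ?_
  rw [← hn i]
  have h2 : ∀ s : Finset (Fin N), t i ^ (∑ l ∈ s, (a l : ℤ) * m l i) =
      ∏ l ∈ s, t i ^ ((a l : ℤ) * m l i) := by
    classical
    intro s
    induction s using Finset.induction_on with
    | empty => simp
    | insert b s hb ih => rw [Finset.sum_insert hb, Finset.prod_insert hb, zpow_add₀ (ht i), ih]
  exact h2 _

theorem ext_ne {t : Fin p → K'} (hE : Ext K t) (i : Fin p) : t i ≠ 0 := hE.ind.ne_zero i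

theorem map_smul' {t : Fin p → K'} (hE : Ext K t) (z : ℂ) (y : K) :
    algebraMap K K' (z • y) = z • algebraMap K K' y := by
  rw [Algebra.smul_def, Algebra.smul_def, map_mul, hE.tower]

theorem s_GENS : S_GENS := by
  classical
  intro K K' _ _ _ _ _ R ξ r H c hR hn hcox hT s χ hs hs0 hsχ p t u hE hu hd hus
  obtain ⟨N, x, mm, hx, hgen⟩ := hcox p u hu hd
  have h1 : ∀ l, ∃ B : Finset K, (B : Set K) ⊆ {y | y ∈ Sd R u (mm l) ∧
      ∃ m' : Fin r → ℤ, IsW H m' y} ∧ x l ∈ Submodule.span ℂ (B : Set K) := fun l =>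
    Submodule.mem_span_finite_of_mem_span (sd_dec hR.frac hR.fg hn hT hs hs0 hsχ hu hus _ (hx l))
  choose B hB hxB using h1
  obtain ⟨T, hT'⟩ : ∃ T : Finset (K × (Fin p → ℤ)), ∀ g, g ∈ T ↔
      ∃ l, g.2 = mm l ∧ g.1 ∈ B l ∧ g.1 ≠ 0 ∧ (g.2 = 0 → ¬ Cst g.1) := by
    refine ⟨Finset.univ.biUnion fun l => ((B l).filter fun y => y ≠ 0 ∧ (mm l = 0 → ¬ Cst y)).image
      fun y => (y, mm l), fun g => ?_⟩
    rw [Finset.mem_biUnion]
    constructor
    · rintro ⟨l, -, hg⟩
      obtain ⟨y, hy, rfl⟩ := Finset.mem_image.mp hg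
      obtain ⟨hy1, hy2, hy3⟩ := Finset.mem_filter.mp hy
      exact ⟨l, rfl, hy1, hy2, hy3⟩
    · rintro ⟨l, h1, h2, h3, h4⟩
      refine ⟨l, Finset.mem_univ l, Finset.mem_image.mpr ⟨g.1, ?_, ?_⟩⟩
      · refine Finset.mem_filter.mpr ⟨h2, h3, fun h5 => h4 (by rw [h1, h5])⟩
      · rw [← h1]
  have hm : ∀ y : K, ∃ m : Fin r → ℤ, (∃ m' : Fin r → ℤ, IsW H m' y) → IsW H m y := by
    intro y
    by_cases hy : ∃ m' : Fin r → ℤ, IsW H m' y
    · obtain ⟨m', hm'⟩ := hy
      exact ⟨m', fun _ => hm'⟩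
    · exact ⟨0, fun h => absurd h hy⟩
  choose m hm using hm
  refine ⟨T, m, ?_, le_antisymm ?_ ?_⟩
  · intro g hg
    obtain ⟨l, h1, h2, h3, h4⟩ := (hT' g).mp hg
    obtain ⟨h5, h6⟩ := hB l (Finset.mem_coe.mpr h2)
    refine ⟨?_, h3, hm _ h6, h4⟩
    rw [h1]
    exact h5
  · refine Algebra.adjoin_le ?_
    rintro _ ⟨n, y, hy, rfl⟩
    set A := Algebra.adjoin ℂ {z | ∃ g ∈ T, z = algebraMap K K' g.1 * mon t g.2} with hA
    have key : ∀ l, algebraMap K K' (x l) * mon t (mm l) ∈ A := by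
      intro l
      have h2 : ∀ y ∈ Submodule.span ℂ (B l : Set K), algebraMap K K' y * mon t (mm l) ∈ A := by
        intro y hy
        induction hy using Submodule.span_induction with
        | mem y hy =>
          by_cases h0 : y = 0
          · rw [h0, map_zero, zero_mul]
            exact A.zero_mem
          · by_cases hc : mm l = 0 ∧ Cst y
            · obtain ⟨h3, z, rfl⟩ := hc
              rw [h3, mon_zero', mul_one, ← hE.tower]
              exact A.algebraMap_mem z
            · refine Algebra.subset_adjoin ⟨(y, mm l), (hT' _).mpr ⟨l, rfl, Finset.mem_coe.mp hy,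
                h0, fun h3 h4 => hc ⟨h3, h4⟩⟩, rfl⟩
        | zero =>
          rw [map_zero, zero_mul]
          exact A.zero_mem
        | add a b _ _ ha hb =>
          rw [map_add, add_mul]
          exact A.add_mem ha hb
        | smul z a _ ha =>
          rw [map_smul' hE, smul_mul_assoc]
          exact A.smul_mem ha z
      exact h2 _ (hxB l)
    have h2 := hgen n y hy
    clear hy
    induction h2 using Submodule.span_induction with
    | mem y hy =>
      obtain ⟨a, ha, rfl⟩ := hy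
      rw [map_prod, mon_prod (ext_ne hE) mm a ha, ← Finset.prod_mul_distrib]
      refine A.prod_mem fun l _ => ?_
      rw [map_pow, ← mul_pow]
      exact A.pow_mem (key l) _
    | zero =>
      rw [map_zero, zero_mul]
      exact A.zero_mem
    | add a b _ _ ha hb =>
      rw [map_add, add_mul]
      exact A.add_mem ha hb
    | smul z a _ ha =>
      rw [map_smul' hE, smul_mul_assoc]
      exact A.smul_mem ha z
  · refine Algebra.adjoin_le ?_
    rintro _ ⟨g, hg, rfl⟩
    obtain ⟨l, h1, h2, h3, h4⟩ := (hT' g).mp hg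
    obtain ⟨h5, -⟩ := hB l (Finset.mem_coe.mpr h2)
    refine Algebra.subset_adjoin ⟨g.2, g.1, ?_, rfl⟩
    rw [h1]
    exact h5

end Pool.Agent.Helper14.D4
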