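import Pool.Agent.Helper88.D4.Stmts

/-!
# Lie derivatives of rational 2-forms
-/

set_option autoImplicit false

namespace Pool.Agent.Helper14.D4

open Module Pool.Agent.Helper37.SD Pool.Agent.Helper20.TS Pool.Agent.Helper88.D4

variable {K : Type} [Field K] [Algebra ℂ K]

theorem lie_smulK (H : Derivation ℂ K K) (f : K) (D : Derivation ℂ K K) :
    ⁅H, f • D⁆ = f • ⁅H, D⁆ + H f • D := by
  ext y
  rw [Derivation.commutator_apply, Derivation.add_apply, Derivation.smul_apply,
    Derivation.smul_apply, Derivation.smul_apply, Derivation.commutator_apply,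
    Derivation.smul_apply, smul_eq_mul, smul_eq_mul, smul_eq_mul, smul_eq_mul,
    Derivation.leibniz, smul_eq_mul, smul_eq_mul]
  ring

/-- The Lie derivative of a 2-form. -/
noncomputable def lieF (H : Derivation ℂ K K) : Form K →ₗ[ℂ] Form K where
  toFun ω := LinearMap.mk₂ K (fun D E => H (ω D E) - ω ⁅H, D⁆ E - ω D ⁅H, E⁆)
    (fun D D' E => by
      rw [map_add, LinearMap.add_apply, map_add, lie_add, map_add, LinearMap.add_apply,
        LinearMap.add_apply]
      ring)
    (fun f D E => by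
      have e1 : ω (f • D) E = f * ω D E := by rw [map_smul]; rfl
      have e2 : ω ⁅H, f • D⁆ E = f * ω ⁅H, D⁆ E + H f * ω D E := by
        rw [lie_smulK, map_add, map_smul, map_smul]; rfl
      have e3 : ω (f • D) ⁅H, E⁆ = f * ω D ⁅H, E⁆ := by rw [map_smul]; rfl
      rw [e1, e2, e3, Derivation.leibniz, smul_eq_mul, smul_eq_mul, smul_eq_mul]
      ring)
    (fun D E E' => by
      rw [map_add, map_add, lie_add, map_add, map_add]
      ring)
    (fun f D E => by
      have e1 : ω D (f • E) = f * ω D E := by rw [map_smul]; rfl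
      have e2 : ω D ⁅H, f • E⁆ = f * ω D ⁅H, E⁆ + H f * ω D E := by
        rw [lie_smulK, map_add, map_smul, map_smul]; rfl
      have e3 : ω ⁅H, D⁆ (f • E) = f * ω ⁅H, D⁆ E := by rw [map_smul]; rfl
      rw [e1, e2, e3, Derivation.leibniz, smul_eq_mul, smul_eq_mul, smul_eq_mul]
      ring)
  map_add' ω ω' := by
    refine LinearMap.ext₂ fun D E => ?_
    simp only [LinearMap.mk₂_apply, LinearMap.add_apply, map_add]
    ring
  map_smul' z ω := by
    refine LinearMap.ext₂ fun D E => ?_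
    simp only [LinearMap.mk₂_apply, LinearMap.smul_apply, Derivation.map_smul, RingHom.id_apply,
      smul_sub]

theorem lieF_apply (H : Derivation ℂ K K) (ω : Form K) (D E : Derivation ℂ K K) :
    lieF H ω D E = H (ω D E) - ω ⁅H, D⁆ E - ω D ⁅H, E⁆ := rfl

theorem homForm_iff {ξ : Derivation ℂ K K} {ℓ : ℝ} {ω : Form K} :
    HomForm ξ ℓ ω ↔ lieF ξ ω = (ℓ : ℂ) • ω := by
  constructor
  · intro h
    refine LinearMap.ext₂ fun D E => ?_
    rw [lieF_apply]
    exact h D E
  · intro h D E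
    have h1 : lieF ξ ω D E = ((ℓ : ℂ) • ω) D E := by rw [h]
    exact h1

theorem lieF_comm {A B : Derivation ℂ K K} (h : ⁅A, B⁆ = 0) (ω : Form K) :
    lieF A (lieF B ω) = lieF B (lieF A ω) := by
  refine LinearMap.ext₂ fun D E => ?_
  have h1 : ∀ x, A (B x) = B (A x) := by
    intro x
    have := congrArg (fun D : Derivation ℂ K K => D x) h
    simp only [Derivation.commutator_apply, Derivation.zero_apply] at this
    exact sub_eq_zero.1 this
  have h2 : ∀ D : Derivation ℂ K K, ⁅A, ⁅B, D⁆⁆ = ⁅B, ⁅A, D⁆⁆ := by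
    intro D
    rw [leibniz_lie, h, zero_lie, zero_add]
  simp only [lieF_apply, map_sub, h1, h2]
  ring

theorem alt_swap {R : Subalgebra ℂ K} {ω : Form K} (h : IsReg R ω) (D E : Derivation ℂ K K) :
    ω D E = -ω E D := by
  have h1 := h.alt (D + E)
  have h2 : ω (D + E) (D + E) = ω D D + ω E D + (ω D E + ω E E) := by
    rw [map_add, map_add ω D E, LinearMap.add_apply, LinearMap.add_apply]
  rw [h2, h.alt, h.alt, zero_add, add_zero] at h1
  exact eq_neg_of_add_eq_zero_right h1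

theorem lieF_reg {R : Subalgebra ℂ K} {ω : Form K} (h : IsReg R ω) {H : Derivation ℂ K K}
    (hH : Pres R H) : IsReg R (lieF H ω) := by
  refine ⟨fun D => ?_, fun D E hD hE => ?_⟩
  · rw [lieF_apply, h.alt, map_zero, alt_swap h ⁅H, D⁆ D]
    ring
  · have hl : ∀ D, Pres R D → Pres R ⁅H, D⁆ := by
      intro D hD x hx
      rw [Derivation.commutator_apply]
      exact R.sub_mem (hH _ (hD x hx)) (hD _ (hH x hx))
    rw [lieF_apply]
    exact R.sub_mem (R.sub_mem (hH _ (h.reg D E hD hE)) (h.reg _ _ (hl D hD) hE))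
      (h.reg _ _ hD (hl E hE))

/-- Cartan's formula for a closed form. -/
theorem lieF_cartan {R : Subalgebra ℂ K} {ω : Form K} (h : IsReg R ω) (hc : Closed ω)
    (H B C : Derivation ℂ K K) :
    lieF H ω B C = B (ω H C) - C (ω H B) - ω H ⁅B, C⁆ := by
  have h1 := hc H B C
  rw [alt_swap h ⁅H, C⁆ B, alt_swap h ⁅B, C⁆ H] at h1
  rw [lieF_apply]
  linear_combination h1

theorem lieF_closed {R : Subalgebra ℂ K} {ω : Form K} (h : IsReg R ω) (hc : Closed ω)
    (H : Derivation ℂ K K) : Closed (lieF H ω) := by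
  intro A B C
  simp only [lieF_cartan h hc, map_sub]
  have j1 : ⁅⁅A, B⁆, C⁆ - ⁅⁅A, C⁆, B⁆ + ⁅⁅B, C⁆, A⁆ = 0 := by
    have e1 : ⁅⁅A, B⁆, C⁆ = ⁅A, ⁅B, C⁆⁆ - ⁅B, ⁅A, C⁆⁆ := lie_lie A B C
    have e2 : ⁅⁅A, C⁆, B⁆ = -⁅B, ⁅A, C⁆⁆ := (lie_skew _ _).symm
    have e3 : ⁅⁅B, C⁆, A⁆ = -⁅A, ⁅B, C⁆⁆ := (lie_skew _ _).symm
    rw [e1, e2, e3]
    abel
  have j2 := congrArg (fun D => ω H D) j1
  simp only [map_add, map_sub, map_zero] at j2
  simp only [Derivation.commutator_apply] at *
  linear_combination j2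

end Pool.Agent.Helper14.D4
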