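import Pool.Agent.Helper14.D4.Gens
import Pool.Agent.Helper34.D4.Tr

/-!
# The Cox algebra is a cone (MP_e1889a_ag, S_RES)
-/

set_option autoImplicit false

namespace Pool.Agent.Helper14.D4

open Module Pool.Agent.Helper37.SD Pool.Agent.Helper20.TS Pool.Agent.Helper88.D4
  Pool.Agent.Helper20.D4

/-- An algebra generated by elements of positive integral degrees is a cone. -/
theorem ncone_gen {K : Type} [Field K] [Algebra ℂ K] {A : Subalgebra ℂ K} (hf : IsFrac A)
    (hfg : A.FG) {ζ : Derivation ℂ K K} {S : Set K} (hS : Algebra.adjoin ℂ S = A)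
    (hd : ∀ t ∈ S, ∃ k : ℕ, 0 < k ∧ ζ t = (((k : ℝ)) : ℂ) • t) : NCone A ζ := by
  classical
  have key : ∀ x ∈ A, ∃ a : ℂ, x - algebraMap ℂ K a ∈ RH A ζ (fun b => ∃ k : ℕ, 0 < k ∧ b = k) := by
    intro x hx
    have hx' : x ∈ Algebra.adjoin ℂ S := hS.symm ▸ hx
    induction hx' using Algebra.adjoin_induction with
    | mem t ht =>
      obtain ⟨k, hk, h2⟩ := hd t ht
      refine ⟨0, ?_⟩
      rw [map_zero, sub_zero]
      exact mem_hsp (c := (k : ℝ)) hx ⟨k, hk, rfl⟩ h2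
    | algebraMap a => exact ⟨a, by rw [sub_self]; exact Submodule.zero_mem _⟩
    | add x y hx1 hy1 ihx ihy =>
      obtain ⟨a, ha⟩ := ihx (hS ▸ hx1)
      obtain ⟨b, hb⟩ := ihy (hS ▸ hy1)
      refine ⟨a + b, ?_⟩
      have h1 : x + y - algebraMap ℂ K (a + b) = (x - algebraMap ℂ K a) + (y - algebraMap ℂ K b) := by
        rw [map_add]; ring
      rw [h1]
      exact Submodule.add_mem _ ha hb
    | mul x y hx1 hy1 ihx ihy =>
      obtain ⟨a, ha⟩ := ihx (hS ▸ hx1)
      obtain ⟨b, hb⟩ := ihy (hS ▸ hy1)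
      refine ⟨a * b, ?_⟩
      have h1 : x * y - algebraMap ℂ K (a * b) = (x - algebraMap ℂ K a) * (y - algebraMap ℂ K b) +
          (a • (y - algebraMap ℂ K b) + b • (x - algebraMap ℂ K a)) := by
        rw [map_mul, Algebra.smul_def, Algebra.smul_def]; ring
      rw [h1]
      refine Submodule.add_mem _ (hsp_mul ?_ ha hb)
        (Submodule.add_mem _ (Submodule.smul_mem _ _ hb) (Submodule.smul_mem _ _ ha))
      rintro _ _ ⟨k, hk, rfl⟩ ⟨l, hl, rfl⟩
      exact ⟨k + l, by omega, by push_cast; rfl⟩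
  have hnat : ∀ x ∈ A, x ∈ RH A ζ (fun b => ∃ k : ℕ, b = k) := by
    intro x hx
    obtain ⟨a, ha⟩ := key x hx
    have h1 : x = (x - algebraMap ℂ K a) + a • (1 : K) := by
      rw [Algebra.smul_def, mul_one, sub_add_cancel]
    rw [h1]
    refine Submodule.add_mem _ (hsp_mono le_rfl ?_ ha)
      (Submodule.smul_mem _ _ (mem_hsp A.one_mem ⟨0, Nat.cast_zero.symm⟩ eig_one))
    rintro b ⟨k, _, hk⟩
    exact ⟨k, hk⟩
  refine { frac := hf, fg := hfg, span := ?_, const := ?_, int := ?_ }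
  · intro x hx
    refine hsp_mono le_rfl ?_ (hnat x hx)
    rintro b ⟨k, rfl⟩
    exact Nat.cast_nonneg k
  · intro x hx hx0
    obtain ⟨a, ha⟩ := key x hx
    refine ⟨a, ?_⟩
    by_contra h1
    have h2 : x - algebraMap ℂ K a ≠ 0 := sub_ne_zero.mpr h1
    have h3 : ζ (x - algebraMap ℂ K a) = ((0 : ℝ) : ℂ) • (x - algebraMap ℂ K a) := by
      rw [map_sub, hx0, Derivation.map_algebraMap, sub_zero, Complex.ofReal_zero, zero_smul]
    obtain ⟨k, hk, hk0⟩ := prop_of_mem_hsp h2 h3 ha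
    have h4 : (0 : ℝ) < k := Nat.cast_pos.mpr hk
    rw [← hk0] at h4
    exact lt_irrefl _ h4
  · intro x hx hx0 b hb
    exact prop_of_mem_hsp hx0 hb (hnat x hx)

/-- The monomials are eigenvectors. -/
theorem eig_mon {K' : Type} [Field K'] [Algebra ℂ K'] {p : ℕ} {t : Fin p → K'}
    (ht : ∀ i, t i ≠ 0) {Z' : Derivation ℂ K' K'} {mu : Fin p → ℂ}
    (hZ : ∀ i, Z' (t i) = mu i • t i) (n : Fin p → ℤ) :
    Z' (mon t n) = (∑ i, mu i * n i) • mon t n := by
  classical
  have h1 : ∀ s : Finset (Fin p), Z' (∏ i ∈ s, t i ^ n i) =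
      (∑ i ∈ s, mu i * n i) • ∏ i ∈ s, t i ^ n i := by
    intro s
    induction s using Finset.induction_on with
    | empty => rw [Finset.prod_empty, Finset.sum_empty, zero_smul, Derivation.map_one_eq_zero]
    | insert b s hb ih =>
      have h2 : Z' (t b ^ n b) = (mu b * n b) • t b ^ n b := by
        have h3 := ld_zpow Z' (ht b) (n b)
        have h4 : t b ^ n b ≠ 0 := zpow_ne_zero _ (ht b)
        rw [hZ b, Algebra.smul_def, mul_div_assoc, div_self (ht b), mul_one,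
          div_eq_iff h4] at h3
        rw [h3, Algebra.smul_def, map_mul, map_intCast]
        ring
      rw [Finset.prod_insert hb, Finset.sum_insert hb, Derivation.leibniz, ih, h2, smul_eq_mul,
        smul_eq_mul, mul_smul_comm, mul_smul_comm, add_smul, add_comm,
        mul_comm (∏ i ∈ s, t i ^ n i)]
  exact h1 _

theorem s_NC : S_NC := by
  classical
  intro K K' _ _ _ _ _ R r H p t u hE hf T m hTm hgen lam mu hpos Z Z' hZ hex hZt
  refine ncone_gen hf ?_ hgen.symm ?_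
  · refine ⟨T.image fun g => algebraMap K K' g.1 * mon t g.2, ?_⟩
    rw [hgen]
    congr 1
    ext z
    constructor
    · intro hz
      obtain ⟨g, hg, rfl⟩ := Finset.mem_image.mp (Finset.mem_coe.mp hz)
      exact ⟨g, hg, rfl⟩
    · rintro ⟨g, hg, rfl⟩
      exact Finset.mem_coe.mpr (Finset.mem_image.mpr ⟨g, hg, rfl⟩)
  · rintro _ ⟨g, hg, rfl⟩
    have h1 := hpos g hg
    refine ⟨(∑ j, lam j * m g.1 j + ∑ i, mu i * g.2 i).toNat, by omega, ?_⟩
    have h2 : Z g.1 = ((∑ j, lam j * m g.1 j : ℤ) : ℂ) • g.1 := by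
      have h3 := Pool.Agent.Helper34.D4.sum_isW (H := H) lam (hTm g hg)
      rw [hZ, h3]
      congr 1
    have h4 : (((((∑ j, lam j * m g.1 j + ∑ i, mu i * g.2 i).toNat : ℕ) : ℝ)) : ℂ) =
        ((∑ j, lam j * m g.1 j : ℤ) : ℂ) + ∑ i, ((mu i : ℤ) : ℂ) * g.2 i := by
      have h5 : (((∑ j, lam j * m g.1 j + ∑ i, mu i * g.2 i).toNat : ℤ) : ℂ) =
          ((∑ j, lam j * m g.1 j + ∑ i, mu i * g.2 i : ℤ) : ℂ) := by
        rw [Int.toNat_of_nonneg h1.le]
      rw [Complex.ofReal_natCast, ← Int.cast_natCast, h5]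
      push_cast
      rfl
    rw [h4, Derivation.leibniz, hex, h2, eig_mon (ext_ne hE) hZt, map_smul' hE, smul_eq_mul,
      smul_eq_mul, mul_smul_comm, mul_smul_comm, add_smul, add_comm, mul_comm (mon t g.2)]

end Pool.Agent.Helper14.D4
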