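import Pool.Agent.Helper88.D4.Stmts3
import Pool.Agent.Helper34.D4.Hv
import Pool.Agent.Helper76.D4.Base

/-!
# The spaces of sections `Sd R u n` are stable under the torus (MP_e1889a_ag)
-/

set_option autoImplicit false

namespace Pool.Agent.Helper14.D4

open Module Pool.Agent.Helper37.SD Pool.Agent.Helper20.TS Pool.Agent.Helper88.D4
  Pool.Agent.Helper76.D4 Pool.Agent.Helper34.D4

variable {K : Type} [Field K] [Algebra ℂ K]

theorem isW_smul {r : ℕ} {H : Fin r → Derivation ℂ K K} {m : Fin r → ℤ} {y : K} (z : ℂ)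
    (hy : IsW H m y) : IsW H m (z • y) := by
  intro i
  rw [Derivation.map_smul, hy i, smul_comm]

theorem isW_zero {r : ℕ} {H : Fin r → Derivation ℂ K K} {m : Fin r → ℤ} : IsW H m (0 : K) := by
  intro i
  rw [map_zero, smul_zero]

theorem isW_add {r : ℕ} {H : Fin r → Derivation ℂ K K} {m : Fin r → ℤ} {x y : K}
    (hx : IsW H m x) (hy : IsW H m y) : IsW H m (x + y) := by
  intro i
  rw [map_add, hx i, hy i, smul_add]

/-- The weight components of an element of a stable subspace are in the subspace. -/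
theorem comp_mem {r : ℕ} (H : Fin r → Derivation ℂ K K) (W : Submodule ℂ K)
    (hW : ∀ i, ∀ x ∈ W, H i x ∈ W) (S : Finset (Fin r → ℤ)) : ∀ f : (Fin r → ℤ) → K,
      (∀ m ∈ S, IsW H m (f m)) → ∑ m ∈ S, f m ∈ W → ∀ m ∈ S, f m ∈ W := by
  classical
  induction S using Finset.induction_on with
  | empty => intro f _ _ m hm; exact absurd hm (Finset.notMem_empty m)
  | insert a S ha ih =>
    intro f hf hsum
    have h1 : ∀ m ∈ S, f m ∈ W := by
      intro m hm
      have hne : m ≠ a := fun e => ha (e ▸ hm)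
      obtain ⟨i, hi⟩ := Function.ne_iff.mp hne
      have h2 : ∑ b ∈ S, (((b i : ℤ) : ℂ) - ((a i : ℤ) : ℂ)) • f b ∈ W := by
        have h3 : H i (∑ b ∈ insert a S, f b) - ((a i : ℤ) : ℂ) • ∑ b ∈ insert a S, f b ∈ W :=
          W.sub_mem (hW i _ hsum) (W.smul_mem _ hsum)
        have h4 : H i (∑ b ∈ insert a S, f b) - ((a i : ℤ) : ℂ) • ∑ b ∈ insert a S, f b =
            ∑ b ∈ S, (((b i : ℤ) : ℂ) - ((a i : ℤ) : ℂ)) • f b := by
          rw [map_sum, Finset.smul_sum, ← Finset.sum_sub_distrib, Finset.sum_insert ha,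
            hf a (Finset.mem_insert_self a S) i, sub_self, zero_add]
          refine Finset.sum_congr rfl fun b hb => ?_
          rw [hf b (Finset.mem_insert_of_mem hb) i, sub_smul]
        rwa [h4] at h3
      have h5 := ih (fun b => (((b i : ℤ) : ℂ) - ((a i : ℤ) : ℂ)) • f b)
        (fun b hb => isW_smul _ (hf b (Finset.mem_insert_of_mem hb))) h2 m hm
      have h6 : ((m i : ℤ) : ℂ) - ((a i : ℤ) : ℂ) ≠ 0 := by
        rw [sub_ne_zero]
        exact_mod_cast hi
      have h7 := W.smul_mem ((((m i : ℤ) : ℂ) - ((a i : ℤ) : ℂ))⁻¹) h5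
      rwa [smul_smul, inv_mul_cancel₀ h6, one_smul] at h7
    intro m hm
    rcases Finset.mem_insert.mp hm with rfl | hm
    · have h2 : f m = ∑ b ∈ insert m S, f b - ∑ b ∈ S, f b := by
        rw [Finset.sum_insert ha, add_sub_cancel_right]
      rw [h2]
      exact W.sub_mem hsum (W.sum_mem h1)
    · exact h1 m hm

/-- A sum of weight vectors is a sum of weight vectors of different weights. -/
theorem exists_wdec {r : ℕ} (H : Fin r → Derivation ℂ K K) {x : K}
    (hx : x ∈ Submodule.span ℂ {y | ∃ m : Fin r → ℤ, IsW H m y}) :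
    ∃ f : (Fin r → ℤ) →₀ K, (∀ m, IsW H m (f m)) ∧ (f.sum fun _ y => y) = x := by
  classical
  induction hx using Submodule.span_induction with
  | mem y hy =>
    obtain ⟨m, hm⟩ := hy
    refine ⟨Finsupp.single m y, fun b => ?_, Finsupp.sum_single_index rfl⟩
    by_cases hb : m = b
    · subst hb
      rw [Finsupp.single_eq_same]
      exact hm
    · rw [Finsupp.single_eq_of_ne (Ne.symm hb)]
      exact isW_zero
  | zero => exact ⟨0, fun b => isW_zero, Finsupp.sum_zero_index⟩
  | add x y _ _ hx hy =>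
    obtain ⟨f, hf, hf'⟩ := hx
    obtain ⟨g, hg, hg'⟩ := hy
    refine ⟨f + g, fun b => isW_add (hf b) (hg b), ?_⟩
    rw [Finsupp.sum_add_index' (fun _ => rfl) (fun _ _ _ => rfl), hf', hg']
  | smul z x _ hx =>
    obtain ⟨f, hf, hf'⟩ := hx
    refine ⟨z • f, fun b => isW_smul z (hf b), ?_⟩
    rw [Finsupp.sum_smul_index' (fun _ => rfl), ← Finsupp.smul_sum, hf']

theorem ld_mul (D : Derivation ℂ K K) {x y : K} (hx : x ≠ 0) (hy : y ≠ 0) :
    D (x * y) / (x * y) = D x / x + D y / y := by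
  rw [Derivation.leibniz, smul_eq_mul, smul_eq_mul]
  field_simp
  ring

theorem ld_inv (D : Derivation ℂ K K) {x : K} (hx : x ≠ 0) : D x⁻¹ / x⁻¹ = -(D x / x) := by
  have h1 := ld_mul D hx (inv_ne_zero hx)
  rw [mul_inv_cancel₀ hx, Derivation.map_one_eq_zero, zero_div] at h1
  linear_combination -h1

theorem ld_pow (D : Derivation ℂ K K) {x : K} (hx : x ≠ 0) (n : ℕ) :
    D (x ^ n) / x ^ n = n * (D x / x) := by
  induction n with
  | zero => rw [pow_zero, Derivation.map_one_eq_zero, Nat.cast_zero, zero_mul, zero_div]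
  | succ n ih =>
    rw [pow_succ, ld_mul D (pow_ne_zero n hx) hx, ih]
    push_cast
    ring

theorem ld_zpow (D : Derivation ℂ K K) {x : K} (hx : x ≠ 0) (n : ℤ) :
    D (x ^ n) / x ^ n = n * (D x / x) := by
  rcases n with n | n
  · rw [Int.ofNat_eq_natCast, zpow_natCast, ld_pow D hx, Int.cast_natCast]
  · rw [zpow_negSucc, ld_inv D (pow_ne_zero _ hx), ld_pow D hx, Int.cast_negSucc]
    ring

theorem val_zpow (u : RVal K) {x : K} (hx : x ≠ 0) (n : ℤ) : u.val (x ^ n) = n * u.val x := by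
  rcases n with n | n
  · rw [Int.ofNat_eq_natCast, zpow_natCast, u.val_pow hx, Int.cast_natCast]
  · rw [zpow_negSucc, u.val_inv (pow_ne_zero _ hx), u.val_pow hx, Int.cast_negSucc]
    ring

/-- A derivation which preserves `R` and has an eigenvector with positive valuation is a
logarithmic derivation. -/
theorem logDer_of_eig {R : Subalgebra ℂ K} {u : RVal K} (hu : PDiv R u) {D : Derivation ℂ K K}
    (hD : Pres R D) {s : K} (hs0 : s ≠ 0) (hus : 0 < u.val s) {c : ℂ} (hDs : D s = c • s) :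
    LogDer u D := by
  obtain ⟨p, hp, hp0, hup⟩ := hu.unif
  have hDO : ∀ x, u.Ge 0 x → u.Ge 0 (D x) := fun x hx =>
    der_ge hu D (fun y hy => ge_of_mem hu (hD y hy)) hx
  -- units
  have hunit : ∀ e, e ≠ 0 → u.val e = 0 → u.Ge 0 (D e / e) := by
    intro e he hue
    have := u.ge_div (hDO e (Or.inr hue.ge)) he
    rwa [hue, sub_zero] at this
  have hdec : ∀ x, x ≠ 0 → ∃ (n : ℤ) (e : K), e ≠ 0 ∧ u.val e = 0 ∧ x = p ^ n * e ∧
      u.val x = n := by
    intro x hx
    obtain ⟨n, hn⟩ := hu.int x hx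
    have h1 : p ^ n ≠ 0 := zpow_ne_zero n hp0
    refine ⟨n, x * (p ^ n)⁻¹, mul_ne_zero hx (inv_ne_zero h1), ?_, ?_, hn⟩
    · rw [u.map_mul _ _ hx (inv_ne_zero h1), u.val_inv h1, val_zpow u hp0, hup, hn]
      ring
    · rw [mul_comm x, ← mul_assoc, mul_inv_cancel₀ h1, one_mul]
  have hcst : ∀ z : ℂ, u.Ge 0 (algebraMap ℂ K z) := by
    intro z
    by_cases hz : z = 0
    · subst hz
      exact Or.inl (map_zero _)
    · exact Or.inr (u.map_const z hz).ge
  have hp1 : u.Ge 0 (D p / p) := by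
    obtain ⟨n, e, he, hue, hse, hn⟩ := hdec s hs0
    have h1 : D s / s = algebraMap ℂ K c := by
      rw [hDs, Algebra.smul_def, mul_div_assoc, div_self hs0, mul_one]
    have h2 : D s / s = n * (D p / p) + D e / e := by
      rw [hse, ld_mul D (zpow_ne_zero n hp0) he, ld_zpow D hp0]
    have hn0 : n ≠ 0 := by
      rintro rfl
      rw [hn] at hus
      simp at hus
    have h3 : D p / p = ((n : ℂ)⁻¹) • (algebraMap ℂ K c - D e / e) := by
      rw [← h1, h2, Algebra.smul_def, map_inv₀, map_intCast]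
      have : (n : K) ≠ 0 := by
        have h4 : (algebraMap ℂ K (n : ℂ)) ≠ 0 := (map_ne_zero _).mpr (Int.cast_ne_zero.mpr hn0)
        rwa [map_intCast] at h4
      field_simp
      ring
    rw [h3]
    exact u.ge_smul _ (u.ge_sub (hcst c) (hunit e he hue))
  intro x hx
  obtain ⟨n, e, he, hue, hxe, hn⟩ := hdec x hx
  have h1 : u.Ge 0 (D x / x) := by
    have h2 : D x / x = ((n : ℤ) : ℂ) • (D p / p) + D e / e := by
      rw [hxe, ld_mul D (zpow_ne_zero n hp0) he, ld_zpow D hp0, Algebra.smul_def, map_intCast]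
    rw [h2]
    exact u.ge_add (u.ge_smul _ hp1) (hunit e he hue)
  have h3 : D x = x * (D x / x) := by rw [mul_div_cancel₀ _ hx]
  rw [h3]
  have := u.ge_mul (Or.inr le_rfl : u.Ge (u.val x) x) h1
  rwa [add_zero] at this

section Sections

variable {R : Subalgebra ℂ K} {ξ : Derivation ℂ K K} {r : ℕ} {H : Fin r → Derivation ℂ K K}
  {c : Fin r → ℝ} {p : ℕ} {u : Fin p → RVal K}

theorem tor_pres (hT : Tor R ξ H c) (i : Fin r) : Pres R (H i) := by
  intro x hx
  have h1 := hT.span x hx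
  clear hx
  induction h1 using Submodule.span_induction with
  | mem y hy =>
    obtain ⟨hy, m, hm⟩ := hy
    rw [hm i]
    exact R.smul_mem hy _
  | zero =>
    rw [map_zero]
    exact R.zero_mem
  | add x y _ _ hx hy =>
    rw [map_add]
    exact R.add_mem hx hy
  | smul z x _ hx =>
    rw [Derivation.map_smul]
    exact R.smul_mem hx z

/-- `Sd R u n` is stable under the torus if the `D i` are components of the zeros of a weight
vector `s`. -/
theorem sd_stable (hT : Tor R ξ H c) {s : K} (hs0 : s ≠ 0) {m : Fin r → ℤ} (hsm : IsW H m s)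
    (hu : ∀ i, PDiv R (u i)) (hus : ∀ i, 0 < (u i).val s) (n : Fin p → ℤ) (j : Fin r) {x : K}
    (hx : x ∈ Sd R u n) : H j x ∈ Sd R u n := by
  refine ⟨fun i => ?_, fun w hw h => ?_⟩
  · rcases hx.1 i with h0 | h1
    · rw [h0, map_zero]
      exact Or.inl rfl
    · by_cases h0 : x = 0
      · rw [h0, map_zero]
        exact Or.inl rfl
      · rcases logDer_of_eig (hu i) (tor_pres hT j) hs0 (hus i) (hsm j) x h0 with h2 | h2
        · exact Or.inl h2
        · exact Or.inr (h1.trans h2)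
  · exact der_ge hw (H j) (fun y hy => ge_of_mem hw (tor_pres hT j y hy)) (hx.2 w hw h)

/-- The elements of `Sd R u n` are sums of weight vectors. -/
theorem sd_dec (hf : IsFrac R) (hfg : R.FG) (hn : Normal R) (hT : Tor R ξ H c) {s : K}
    (hs : s ∈ R) (hs0 : s ≠ 0) {m : Fin r → ℤ} (hsm : IsW H m s) (hu : ∀ i, PDiv R (u i))
    (hus : ∀ i, 0 < (u i).val s) (n : Fin p → ℤ) {x : K} (hx : x ∈ Sd R u n) :
    x ∈ Submodule.span ℂ {y | y ∈ Sd R u n ∧ ∃ m' : Fin r → ℤ, IsW H m' y} := by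
  classical
  obtain ⟨N, hN⟩ := mem_away hf hfg hn hs hs0 (φ := x) (fun w hw hws => hx.2 w hw fun i =>
    ⟨s, hs0, by rw [hws]; exact (hus i).ne⟩)
  have h1 : x ∈ Submodule.span ℂ {y | ∃ m' : Fin r → ℤ, IsW H m' y} := by
    have h2 : ∀ z ∈ Submodule.span ℂ {y | y ∈ R ∧ ∃ m' : Fin r → ℤ, IsW H m' y},
        z * (s ^ N)⁻¹ ∈ Submodule.span ℂ {y | ∃ m' : Fin r → ℤ, IsW H m' y} := by
      intro z hz
      induction hz using Submodule.span_induction with
      | mem y hy =>
        obtain ⟨-, m', hm'⟩ := hy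
        exact Submodule.subset_span ⟨_, IsW_mul hm' (IsW_inv (pow_ne_zero N hs0) (IsW_pow hsm N))⟩
      | zero =>
        rw [zero_mul]
        exact Submodule.zero_mem _
      | add x y _ _ hx hy =>
        rw [add_mul]
        exact Submodule.add_mem _ hx hy
      | smul z x _ hx =>
        rw [smul_mul_assoc]
        exact Submodule.smul_mem _ _ hx
    have h3 := h2 _ (hT.span _ hN)
    rwa [mul_assoc, mul_inv_cancel₀ (pow_ne_zero N hs0), mul_one] at h3
  obtain ⟨f, hf1, hf2⟩ := exists_wdec H h1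
  have h4 := comp_mem H (Sd R u n) (fun i y hy => sd_stable hT hs0 hsm hu hus n i hy) f.support f
    (fun m' _ => hf1 m') (by
      have h5 : ∑ m' ∈ f.support, f m' = x := hf2
      rw [h5]
      exact hx)
  rw [← hf2]
  refine Submodule.sum_mem _ fun m' hm' => Submodule.subset_span ⟨h4 m' hm', m', hf1 m'⟩

end Sections

end Pool.Agent.Helper14.D4
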