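import Pool.Agent.Helper14.D4.Lie

/-!
# S_T1: torus-homogeneous components of regular closed 2-forms
-/

set_option autoImplicit false

namespace Pool.Agent.Helper14.D4

open Module Pool.Agent.Helper37.SD Pool.Agent.Helper20.TS Pool.Agent.Helper88.D4

/-- A common eigenvector of commuting operators. -/
theorem exists_common {V : Type*} [AddCommGroup V] [Module ℂ V] : ∀ {r : ℕ}
    (L : Fin r → V →ₗ[ℂ] V), (∀ i j x, L i (L j x) = L j (L i x)) → ∀ (W : Submodule ℂ V),
      Module.Finite ℂ W → W ≠ ⊥ → (∀ i, ∀ x ∈ W, L i x ∈ W) →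
        ∃ x ∈ W, x ≠ 0 ∧ ∃ χ : Fin r → ℂ, ∀ i, L i x = χ i • x := by
  intro r
  induction r with
  | zero =>
    intro L _ W _ hW _
    obtain ⟨x, hx, hx0⟩ := Submodule.exists_mem_ne_zero_of_ne_bot hW
    exact ⟨x, hx, hx0, fun i => i.elim0, fun i => i.elim0⟩
  | succ r ih =>
    intro L hL W hfin hW hs
    have : Nontrivial W := (Submodule.nontrivial_iff_ne_bot).2 hW
    let f : End ℂ W := (L 0).restrict (hs 0)
    obtain ⟨μ, hμ⟩ := Module.End.exists_eigenvalue f
    obtain ⟨v, hv⟩ := hμ.exists_hasEigenvector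
    let W' : Submodule ℂ V := W ⊓ LinearMap.ker (L 0 - μ • LinearMap.id)
    have hmem : ∀ x, x ∈ W' ↔ x ∈ W ∧ L 0 x = μ • x := by
      intro x
      show x ∈ W ∧ (L 0 - μ • (LinearMap.id : V →ₗ[ℂ] V)) x = 0 ↔ _
      rw [LinearMap.sub_apply, LinearMap.smul_apply, LinearMap.id_apply, sub_eq_zero]
    have hv' : (v : V) ∈ W' := by
      rw [hmem]
      exact ⟨v.2, congrArg Subtype.val hv.apply_eq_smul⟩
    have hv0 : (v : V) ≠ 0 := fun h => hv.2 (Subtype.ext h)
    have hW' : W' ≠ ⊥ := fun h => hv0 (by rw [h] at hv'; exact (Submodule.mem_bot ℂ).1 hv')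
    have hfin' : Module.Finite ℂ W' :=
      Module.Finite.of_injective (Submodule.inclusion (inf_le_left : W' ≤ W))
        (Submodule.inclusion_injective _)
    obtain ⟨x, hx, hx0, χ, hχ⟩ := ih (fun i => L i.succ) (fun i j x => hL _ _ x) W' hfin' hW'
      (fun i x hx => by
        rw [hmem] at hx ⊢
        exact ⟨hs _ x hx.1, by rw [hL, hx.2, map_smul]⟩)
    refine ⟨x, ((hmem x).1 hx).1, hx0, Fin.cons μ χ, fun i => ?_⟩
    refine Fin.cases ?_ (fun i => ?_) i
    · rw [Fin.cons_zero]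
      exact ((hmem x).1 hx).2
    · rw [Fin.cons_succ]
      exact hχ i

variable {K : Type} [Field K] [Algebra ℂ K] {R : Subalgebra ℂ K} {ξ : Derivation ℂ K K}

/-- homogeneous derivations of `R` -/
def HD (R : Subalgebra ℂ K) (ξ : Derivation ℂ K K) : Set (Derivation ℂ K K) :=
  {D | Pres R D ∧ ∃ c : ℝ, ⁅ξ, D⁆ = (c : ℂ) • D}

theorem span_hd (h : IsCone R ξ) : Submodule.span K (HD R ξ) = ⊤ := by
  classical
  rw [eq_top_iff]
  intro D _
  obtain ⟨T, δ, _, hT, hR⟩ := h.exists_gens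
  choose A hA B hB h0 hAB using h.frac
  let q : K := ∏ t ∈ T, B (D t)
  have hq : q ≠ 0 := Finset.prod_ne_zero_iff.mpr fun t _ => h0 _
  have h1 : Pres R (q • D) := by
    refine pres_of_gens hR fun t ht => ?_
    show (∏ t ∈ T, B (D t)) * D t ∈ R
    rw [← Finset.mul_prod_erase T _ ht]
    have e : B (D t) * (∏ x ∈ T.erase t, B (D x)) * D t =
        A (D t) * ∏ x ∈ T.erase t, B (D x) := by
      have := hAB (D t)
      have e2 : B (D t) * D t = A (D t) := by
        rw [eq_div_iff (h0 _)] at this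
        rw [mul_comm]
        exact this
      rw [mul_right_comm, e2]
    rw [e]
    exact R.mul_mem (hA _) (Subalgebra.prod_mem _ fun _ _ => hB _)
  have h2 := h.der_dec' h1
  have h3 : Hsp (adx ξ) (presSub R) (fun _ => True) ≤
      (Submodule.span K (HD R ξ)).restrictScalars ℂ := by
    refine Submodule.span_le.mpr ?_
    rintro E ⟨hE, c, _, hc⟩
    exact Submodule.subset_span ⟨hE, c, hc⟩
  have h4 : q • D ∈ Submodule.span K (HD R ξ) := h3 h2
  have e : D = q⁻¹ • (q • D) := by rw [smul_smul, inv_mul_cancel₀ hq, one_smul]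
  rw [e]
  exact Submodule.smul_mem _ _ h4

theorem form_zero {S : Set (Derivation ℂ K K)} (hS : Submodule.span K S = ⊤) {ω : Form K}
    (h : ∀ D ∈ S, ∀ E ∈ S, ω D E = 0) : ω = 0 := by
  refine LinearMap.ext_on hS fun D hD => ?_
  refine LinearMap.ext_on hS fun E hE => ?_
  exact h D hD E hE

theorem finite_der (h : IsCone R ξ) : Module.Finite K (Derivation ℂ K K) := by
  classical
  obtain ⟨T, δ, _, hT, hR⟩ := h.exists_gens
  let f : Derivation ℂ K K →ₗ[K] (T → K) :=
    { toFun := fun D t => D t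
      map_add' := fun D E => by funext t; rfl
      map_smul' := fun z D => by funext t; rfl }
  refine Module.Finite.of_injective f ?_
  rw [injective_iff_map_eq_zero]
  intro D hD
  exact der_eq_zero_of_gens hR h.frac fun t ht => congrFun hD ⟨t, ht⟩

/-- regular closed forms of degree `k` -/
def RCF (R : Subalgebra ℂ K) (ξ : Derivation ℂ K K) (k : ℝ) : Submodule ℂ (Form K) where
  carrier := {ω | IsReg R ω ∧ Closed ω ∧ HomForm ξ k ω}
  add_mem' := fun {ω η} h1 h2 => by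
    refine ⟨⟨fun D => ?_, fun D E hD hE => ?_⟩, fun A B C => ?_, ?_⟩
    · show ω D D + η D D = 0
      rw [h1.1.alt, h2.1.alt, add_zero]
    · exact R.add_mem (h1.1.reg D E hD hE) (h2.1.reg D E hD hE)
    · have e1 := h1.2.1 A B C
      have e2 := h2.2.1 A B C
      simp only [LinearMap.add_apply, map_add]
      linear_combination e1 + e2
    · rw [homForm_iff] at *
      rw [map_add, homForm_iff.1 h1.2.2, homForm_iff.1 h2.2.2, smul_add]
  zero_mem' := by
    refine ⟨⟨fun D => rfl, fun D E _ _ => R.zero_mem⟩, fun A B C => ?_, ?_⟩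
    · simp only [LinearMap.zero_apply, map_zero]
      ring
    · rw [homForm_iff, map_zero, smul_zero]
  smul_mem' := fun z ω h1 => by
    refine ⟨⟨fun D => ?_, fun D E hD hE => ?_⟩, fun A B C => ?_, ?_⟩
    · show z • ω D D = 0
      rw [h1.1.alt, smul_zero]
    · exact R.smul_mem (h1.1.reg D E hD hE) z
    · have e1 := h1.2.1 A B C
      simp only [LinearMap.smul_apply, Derivation.map_smul]
      have e2 := congrArg (fun x => z • x) e1
      simp only [smul_add, smul_sub, smul_zero] at e2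
      exact e2
    · rw [homForm_iff, map_smul, homForm_iff.1 h1.2.2, smul_comm]

theorem finite_rcf (h : IsCone R ξ) (k : ℝ) : Module.Finite ℂ (RCF R ξ k) := by
  classical
  have hfin := finite_der h
  have hfg : (Submodule.span K (HD R ξ)).FG := by rw [span_hd h]; exact hfin.fg_top
  obtain ⟨F, hF, hFs⟩ := Submodule.fg_span_iff_fg_span_finset_subset _ |>.1 hfg
  have hFtop : Submodule.span K (F : Set (Derivation ℂ K K)) = ⊤ := by
    rw [← hFs, span_hd h]
  have hc : ∀ D : Derivation ℂ K K, ∃ c : ℝ, D ∈ F → ⁅ξ, D⁆ = (c : ℂ) • D := by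
    intro D
    by_cases hD : D ∈ F
    · obtain ⟨_, c, hc⟩ := hF hD
      exact ⟨c, fun _ => hc⟩
    · exact ⟨0, fun h => absurd h hD⟩
  choose c hc using hc
  have hfe : ∀ t : F × F, Module.Finite ℂ (eigR R ξ (c (t.1 : Derivation ℂ K K) +
      c (t.2 : Derivation ℂ K K) + k)) := fun t => h.finite_eigR _
  let Ψ : RCF R ξ k →ₗ[ℂ] (∀ t : F × F, eigR R ξ (c (t.1 : Derivation ℂ K K) +
      c (t.2 : Derivation ℂ K K) + k)) :=
    { toFun := fun ω t => ⟨(ω : Form K) (t.1 : Derivation ℂ K K) (t.2 : Derivation ℂ K K),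
        ω.2.1.reg _ _ (hF t.1.2).1 (hF t.2.2).1,
        form_eig ω.2.2.2 (hc _ t.1.2) (hc _ t.2.2)⟩
      map_add' := fun ω η => by
        funext t
        exact Subtype.ext rfl
      map_smul' := fun z ω => by
        funext t
        exact Subtype.ext rfl }
  refine Module.Finite.of_injective Ψ ?_
  intro ω η hω
  apply Subtype.ext
  rw [← sub_eq_zero]
  refine form_zero hFtop fun D hD E hE => ?_
  have h1 := congrArg Subtype.val (congrFun hω (⟨D, hD⟩, ⟨E, hE⟩))
  show (ω : Form K) D E - (η : Form K) D E = 0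
  exact sub_eq_zero.2 h1

theorem lieF_smulH (z : ℂ) (H : Derivation ℂ K K) (ω : Form K) :
    lieF (z • H) ω = z • lieF H ω := by
  refine LinearMap.ext₂ fun D E => ?_
  show (z • H) (ω D E) - ω ⁅z • H, D⁆ E - ω D ⁅z • H, E⁆ = z • (H (ω D E) - ω ⁅H, D⁆ E -
    ω D ⁅H, E⁆)
  rw [smul_lie, smul_lie, form_smul_left, form_smul_right, smul_sub, smul_sub]
  rfl

theorem lieF_addH (A B : Derivation ℂ K K) (ω : Form K) :
    lieF (A + B) ω = lieF A ω + lieF B ω := by
  refine LinearMap.ext₂ fun D E => ?_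
  show (A + B) (ω D E) - ω ⁅A + B, D⁆ E - ω D ⁅A + B, E⁆ = (A (ω D E) - ω ⁅A, D⁆ E -
    ω D ⁅A, E⁆) + (B (ω D E) - ω ⁅B, D⁆ E - ω D ⁅B, E⁆)
  rw [add_lie, add_lie, map_add, map_add, LinearMap.add_apply, Derivation.add_apply]
  ring

theorem lieF_sum {ι : Type*} (s : Finset ι) (A : ι → Derivation ℂ K K) (ω : Form K) :
    lieF (∑ i ∈ s, A i) ω = ∑ i ∈ s, lieF (A i) ω := by
  classical
  induction s using Finset.induction_on with
  | empty =>
    rw [Finset.sum_empty, Finset.sum_empty]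
    have := lieF_smulH 0 (0 : Derivation ℂ K K) ω
    rwa [zero_smul, zero_smul] at this
  | insert a s ha ih => rw [Finset.sum_insert ha, Finset.sum_insert ha, lieF_addH, ih]

/-- The eigenvalues of `H` on `R` are integers. -/
def IntEig (R : Subalgebra ℂ K) (H : Derivation ℂ K K) : Prop :=
  ∀ (x : K) (ν : ℂ), x ∈ R → x ≠ 0 → H x = ν • x → ∃ n : ℤ, ν = n

theorem intEig_of_tor {r : ℕ} {H : Fin r → Derivation ℂ K K} {c : Fin r → ℝ}
    (hT : Tor R ξ H c) (i : Fin r) : IntEig R (H i) := by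
  intro x ν hx hx0 hν
  by_contra hcon
  push Not at hcon
  let f : End ℂ K := (H i : K →ₗ[ℂ] K)
  have h1 : Submodule.span ℂ {y | y ∈ R ∧ ∃ m : Fin r → ℤ, IsW H m y} ≤
      ⨆ (μ : ℂ) (_ : μ ≠ ν), f.eigenspace μ := by
    refine Submodule.span_le.mpr ?_
    rintro y ⟨_, m, hm⟩
    have h2 : y ∈ f.eigenspace ((m i : ℤ) : ℂ) := Module.End.mem_eigenspace_iff.2 (hm i)
    have h3 : ((m i : ℤ) : ℂ) ≠ ν := fun h => hcon (m i) h.symm
    exact (le_iSup₂ (f := fun (μ : ℂ) (_ : μ ≠ ν) => f.eigenspace μ) _ h3) h2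
  have h4 : x ∈ f.eigenspace ν := Module.End.mem_eigenspace_iff.2 hν
  have h5 := (Module.End.eigenspaces_iSupIndep f) ν
  exact hx0 (Submodule.disjoint_def.1 h5 x h4 (h1 (hT.span x hx)))

theorem exists_eig_of_iter {V : Type*} [AddCommGroup V] [Module ℂ V] (f : End ℂ V) {lam : ℂ}
    {x : V} (hx : x ≠ 0) : ∀ {n : ℕ}, ((f - lam • (1 : End ℂ V)) ^ n) x = 0 →
      ∃ j, ((f - lam • (1 : End ℂ V)) ^ j) x ≠ 0 ∧
        f (((f - lam • (1 : End ℂ V)) ^ j) x) = lam • (((f - lam • (1 : End ℂ V)) ^ j) x) := by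
  intro n
  induction n with
  | zero => intro h; exact absurd (by simpa using h) hx
  | succ n ih =>
    intro h
    by_cases h0 : ((f - lam • (1 : End ℂ V)) ^ n) x = 0
    · exact ih h0
    · refine ⟨n, h0, ?_⟩
      rw [pow_succ', Module.End.mul_apply, LinearMap.sub_apply, LinearMap.smul_apply,
        Module.End.one_apply, sub_eq_zero] at h
      exact h

theorem iter_mem' {R : Subalgebra ℂ K} {H : Derivation ℂ K K} (hH : Pres R H) (ν : ℂ) {x : K}
    (hx : x ∈ R) (n : ℕ) :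
    (((H : K →ₗ[ℂ] K) - ν • (1 : End ℂ K) : End ℂ K) ^ n) x ∈ R := by
  induction n with
  | zero => exact hx
  | succ n ih =>
    rw [pow_succ', Module.End.mul_apply]
    exact R.sub_mem (hH _ ih) (R.smul_mem ih ν)

theorem int_of_iter {H : Derivation ℂ K K} (hI : IntEig R H) (hH : Pres R H) {x : K}
    (hx : x ∈ R) (hx0 : x ≠ 0) {ν : ℂ} {n : ℕ}
    (hn : (((H : K →ₗ[ℂ] K) - ν • (1 : End ℂ K) : End ℂ K) ^ n) x = 0) : ∃ m : ℤ, ν = m := by
  obtain ⟨j, h1, h2⟩ := exists_eig_of_iter (H : K →ₗ[ℂ] K) hx0 hn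
  exact hI _ ν (iter_mem' hH ν hx j) h1 h2

/-- A Leibniz rule for nilpotent operators. -/
theorem leib_iter {V W U : Type*} [AddCommGroup V] [Module ℂ V] [AddCommGroup W] [Module ℂ W]
    [AddCommGroup U] [Module ℂ U] (β : V → W → U) (h1 : ∀ w, β 0 w = 0) (h2 : ∀ v, β v 0 = 0)
    (A : End ℂ V) (B : End ℂ W) (P : End ℂ U)
    (hP : ∀ v w, P (β v w) = β (A v) w + β v (B w)) : ∀ (n a b : ℕ) (v : V) (w : W),
      n = a + b → (A ^ a) v = 0 → (B ^ b) w = 0 → (P ^ n) (β v w) = 0 := by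
  intro n
  induction n with
  | zero =>
    intro a b v w hn ha hb
    have ha0 : a = 0 := by omega
    subst ha0
    have : v = 0 := by simpa using ha
    rw [this, h1, map_zero]
  | succ n ih =>
    intro a b v w hn ha hb
    rcases a with _ | a
    · have : v = 0 := by simpa using ha
      rw [this, h1, map_zero]
    rcases b with _ | b
    · have : w = 0 := by simpa using hb
      rw [this, h2, map_zero]
    rw [pow_succ, Module.End.mul_apply, hP, map_add,
      ih a (b + 1) (A v) w (by omega) (by rw [pow_succ, Module.End.mul_apply] at ha; exact ha) hb,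
      ih (a + 1) b v (B w) (by omega) ha (by rw [pow_succ, Module.End.mul_apply] at hb; exact hb),
      add_zero]

theorem exists_gen {V U : Type*} [AddCommGroup V] [Module ℂ V] [Module.Finite ℂ V]
    [AddCommGroup U] [Module ℂ U] (f : End ℂ V) (g : V →ₗ[ℂ] U) {x : V} (hx : g x ≠ 0) :
    ∃ lam : ℂ, ∃ y ∈ f.maxGenEigenspace lam, g y ≠ 0 := by
  by_contra hcon
  push Not at hcon
  have h1 : (⨆ lam : ℂ, f.maxGenEigenspace lam) ≤ LinearMap.ker g :=
    iSup_le fun lam y hy => hcon lam y hy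
  rw [Module.End.iSup_maxGenEigenspace_eq_top] at h1
  exact hx (h1 trivial)

section Ad

variable {H : Derivation ℂ K K}

/-- `ad H` on the homogeneous derivations of degree `c` -/
noncomputable def adR (hH : Pres R H) (hc : ⁅ξ, H⁆ = 0) (c : ℝ) : End ℂ (derC R ξ c) where
  toFun D := ⟨⁅H, (D : Derivation ℂ K K)⁆, fun x hx => by
    rw [Derivation.commutator_apply]
    exact R.sub_mem (hH _ (D.2.1 x hx)) (D.2.1 _ (hH x hx)), by
    rw [leibniz_lie, hc, zero_lie, zero_add, D.2.2, lie_smul]⟩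
  map_add' D E := Subtype.ext (lie_add _ _ _)
  map_smul' z D := Subtype.ext (lie_smul _ _ _)

theorem adR_int (h : IsCone R ξ) (hH : Pres R H) (hc : ⁅ξ, H⁆ = 0) (hI : IntEig R H)
    (hspan : ∀ x ∈ R, x ∈ Submodule.span ℂ {y | y ∈ R ∧ ∃ m : ℤ, H y = (m : ℂ) • y})
    {c : ℝ} {D : derC R ξ c} (hD : D ≠ 0) {lam : ℂ} {n : ℕ}
    (hn : ((adR hH hc c - lam • (1 : End ℂ (derC R ξ c))) ^ n) D = 0) : ∃ m : ℤ, lam = m := by
  obtain ⟨j, h1, h2⟩ := exists_eig_of_iter (adR hH hc c) hD hn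
  generalize ((adR hH hc c - lam • (1 : End ℂ (derC R ξ c))) ^ j) D = E at h1 h2
  have h3 : ⁅H, (E : Derivation ℂ K K)⁆ = lam • (E : Derivation ℂ K K) := congrArg Subtype.val h2
  have h4 : (E : Derivation ℂ K K) ≠ 0 := fun h0 => h1 (Subtype.ext h0)
  have h5 : ∃ y ∈ R, (∃ m : ℤ, H y = (m : ℂ) • y) ∧ (E : Derivation ℂ K K) y ≠ 0 := by
    by_contra hcon
    push Not at hcon
    refine h4 (der_eq_zero h.frac fun x hx => ?_)
    have h6 : Submodule.span ℂ {y | y ∈ R ∧ ∃ m : ℤ, H y = (m : ℂ) • y} ≤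
        LinearMap.ker ((E : Derivation ℂ K K) : K →ₗ[ℂ] K) := by
      refine Submodule.span_le.mpr ?_
      rintro y ⟨hy, m, hm⟩
      exact hcon y hy ⟨m, hm⟩
    exact h6 (hspan x hx)
  obtain ⟨y, hy, ⟨m, hm⟩, hEy⟩ := h5
  have h7 : H ((E : Derivation ℂ K K) y) = (lam + m) • (E : Derivation ℂ K K) y := by
    have h8 : ⁅H, (E : Derivation ℂ K K)⁆ y = lam • (E : Derivation ℂ K K) y := by rw [h3]; rfl
    rw [Derivation.commutator_apply, hm, Derivation.map_smul, sub_eq_iff_eq_add] at h8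
    rw [h8, add_smul]
  obtain ⟨n, hn⟩ := hI _ _ (E.2.1 y hy) hEy h7
  exact ⟨n - m, by push_cast; rw [← hn]; ring⟩

/-- The weights of a regular form are integers. -/
theorem form_int (h : IsCone R ξ) (hH : Pres R H) (hc : ⁅ξ, H⁆ = 0) (hI : IntEig R H)
    (hspan : ∀ x ∈ R, x ∈ Submodule.span ℂ {y | y ∈ R ∧ ∃ m : ℤ, H y = (m : ℂ) • y})
    {ω : Form K} (hω : IsReg R ω) (h0 : ω ≠ 0) {χ : ℂ} (hχ : lieF H ω = χ • ω) :
    ∃ m : ℤ, χ = m := by
  have h1 : ∃ D ∈ HD R ξ, ∃ E ∈ HD R ξ, ω D E ≠ 0 := by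
    by_contra hcon
    push Not at hcon
    exact h0 (form_zero (span_hd h) hcon)
  obtain ⟨D, ⟨hD, c, hDc⟩, E, ⟨hE, d, hEd⟩, hDE⟩ := h1
  have f1 := h.finite_derC c
  have f2 := h.finite_derC d
  let g1 : derC R ξ c →ₗ[ℂ] K :=
    { toFun := fun D => ω (D : Derivation ℂ K K) E
      map_add' := fun D D' => by
        show ω ((D : Derivation ℂ K K) + (D' : Derivation ℂ K K)) E = _
        rw [map_add]; rfl
      map_smul' := fun z D => form_smul_left ω z _ _ }
  obtain ⟨lam, D', hD', hg1⟩ := exists_gen (adR hH hc c) g1 (x := ⟨D, hD, hDc⟩) hDE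
  let g2 : derC R ξ d →ₗ[ℂ] K :=
    { toFun := fun E => ω (D' : Derivation ℂ K K) (E : Derivation ℂ K K)
      map_add' := fun E E' => by
        show ω (D' : Derivation ℂ K K) ((E : Derivation ℂ K K) + (E' : Derivation ℂ K K)) = _
        rw [map_add]
      map_smul' := fun z D => form_smul_right ω z _ _ }
  obtain ⟨mu, E', hE', hg2⟩ := exists_gen (adR hH hc d) g2 (x := ⟨E, hE, hEd⟩) hg1
  obtain ⟨a, ha⟩ := (Module.End.mem_maxGenEigenspace _ _ _).1 hD'
  obtain ⟨b, hb⟩ := (Module.End.mem_maxGenEigenspace _ _ _).1 hE'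
  have hD0 : D' ≠ 0 := by
    rintro rfl
    exact hg1 (by show ω 0 E = 0; rw [map_zero]; rfl)
  have hE0 : E' ≠ 0 := by
    rintro rfl
    exact hg2 (by show ω (D' : Derivation ℂ K K) 0 = 0; rw [map_zero])
  obtain ⟨l, hl⟩ := adR_int h hH hc hI hspan hD0 ha
  obtain ⟨m, hm⟩ := adR_int h hH hc hI hspan hE0 hb
  have key := leib_iter (V := derC R ξ c) (W := derC R ξ d) (U := K)
    (fun D E => ω (D : Derivation ℂ K K) (E : Derivation ℂ K K))
    (fun w => by show ω 0 _ = 0; rw [map_zero]; rfl)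
    (fun v => by show ω _ 0 = 0; rw [map_zero])
    (adR hH hc c - lam • (1 : End ℂ (derC R ξ c))) (adR hH hc d - mu • (1 : End ℂ (derC R ξ d)))
    ((H : K →ₗ[ℂ] K) - (χ + lam + mu) • (1 : End ℂ K))
    (fun D E => by
      have e1 : lieF H ω (D : Derivation ℂ K K) (E : Derivation ℂ K K) =
          χ • ω (D : Derivation ℂ K K) (E : Derivation ℂ K K) := by rw [hχ]; rfl
      rw [lieF_apply] at e1
      show H (ω (D : Derivation ℂ K K) (E : Derivation ℂ K K)) -
        (χ + lam + mu) • ω (D : Derivation ℂ K K) (E : Derivation ℂ K K) =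
        ω (⁅H, (D : Derivation ℂ K K)⁆ - lam • (D : Derivation ℂ K K)) (E : Derivation ℂ K K) +
        ω (D : Derivation ℂ K K) (⁅H, (E : Derivation ℂ K K)⁆ - mu • (E : Derivation ℂ K K))
      rw [map_sub, LinearMap.sub_apply, map_sub, form_smul_left, form_smul_right]
      simp only [add_smul]
      linear_combination e1)
    (a + b) a b D' E' rfl ha hb
  have hreg : ω (D' : Derivation ℂ K K) (E' : Derivation ℂ K K) ∈ R := hω.reg _ _ D'.2.1 E'.2.1
  obtain ⟨n, hn⟩ := int_of_iter hI hH hreg hg2 key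
  refine ⟨n - l - m, ?_⟩
  push_cast
  rw [← hl, ← hm, ← hn]
  ring

end Ad

/-- The piece T1. -/
theorem s_T1 : S_T1 := by
  intro K _ _ R ξ J a r H c hC hT ω k hω hcl hk h0
  have h : IsCone R ξ := hC.toIsCone
  have hspanW := hT.span
  have hpres : ∀ i, Pres R (H i) := by
    intro i x hx
    have h1 : Submodule.span ℂ {y | y ∈ R ∧ ∃ m : Fin r → ℤ, IsW H m y} ≤
        (RS R).comap ((H i : Derivation ℂ K K) : K →ₗ[ℂ] K) := by
      refine Submodule.span_le.mpr ?_
      rintro y ⟨hy, m, hm⟩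
      show H i y ∈ R
      rw [hm i]
      exact R.smul_mem hy _
    exact h1 (hT.span x hx)
  have hcomm : ∀ i, ⁅ξ, H i⁆ = 0 := by
    intro i
    rw [hT.xi, sum_lie]
    refine Finset.sum_eq_zero fun j _ => ?_
    rw [smul_lie, hT.comm j i, smul_zero]
  have hspan : ∀ i, ∀ x ∈ R, x ∈ Submodule.span ℂ {y | y ∈ R ∧ ∃ m : ℤ, H i y = (m : ℂ) • y} := by
    intro i x hx
    refine Submodule.span_mono ?_ (hT.span x hx)
    rintro y ⟨hy, m, hm⟩
    exact ⟨hy, m i, hm i⟩
  have hne : RCF R ξ k ≠ ⊥ := by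
    intro hb
    have : ω ∈ RCF R ξ k := ⟨hω, hcl, hk⟩
    rw [hb, Submodule.mem_bot] at this
    exact h0 this
  have hst : ∀ i, ∀ η ∈ RCF R ξ k, lieF (H i) η ∈ RCF R ξ k := by
    intro i η hη
    exact ⟨lieF_reg hη.1 (hpres i), lieF_closed hη.1 hη.2.1 _, by
        rw [homForm_iff, lieF_comm (hcomm i), homForm_iff.1 hη.2.2, map_smul]⟩
  obtain ⟨η, hη, hη0, χ, hχ⟩ := exists_common (fun i => lieF (H i))
    (fun i j x => lieF_comm (hT.comm i j) x) (RCF R ξ k) (finite_rcf h k) hne hst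
  have hint : ∀ i, ∃ m : ℤ, χ i = m := fun i =>
    form_int h (hpres i) (hcomm i) (intEig_of_tor hT i) (hspan i) hη.1 hη0 (hχ i)
  choose m hm using hint
  refine ⟨η, m, hη.1, hη.2.1, hη0, fun i => ?_, ?_⟩
  · rw [homForm_iff, hχ i, hm i]
    push_cast
    rfl
  · have e1 : lieF ξ η = (k : ℂ) • η := homForm_iff.1 hη.2.2
    have e2 : lieF ξ η = ∑ i, (c i : ℂ) • lieF (H i) η := by
      conv_lhs => rw [hT.xi]
      rw [lieF_sum]
      exact Finset.sum_congr rfl fun i _ => lieF_smulH _ _ _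
    have e3 : ∑ i, (c i : ℂ) • lieF (H i) η = (∑ i, (c i : ℂ) * (m i : ℂ)) • η := by
      rw [Finset.sum_smul]
      refine Finset.sum_congr rfl fun i _ => ?_
      rw [hχ i, hm i, smul_smul]
    have e4 : ∃ D E, η D E ≠ 0 := by
      by_contra hcon
      push Not at hcon
      exact hη0 (LinearMap.ext₂ fun D E => hcon D E)
    obtain ⟨D, E, hDE⟩ := e4
    have e5 : (∑ i, (c i : ℂ) * (m i : ℂ)) • η D E = (k : ℂ) • η D E := by
      have e7 : (∑ i, (c i : ℂ) * (m i : ℂ)) • η = (k : ℂ) • η := by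
        rw [← e3, ← e2, e1]
      exact congrArg (fun θ : Form K => θ D E) e7
    have e6 : ((∑ i, c i * (m i : ℝ) : ℝ) : ℂ) = (k : ℂ) := by
      push_cast
      exact smul_left_injective ℂ hDE e5
    exact_mod_cast e6

end Pool.Agent.Helper14.D4
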