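import Pool.Agent.Helper14.D4.T1
import Pool.Agent.Helper88.D4.Stmts4

/-!
# S_T1s: torus-homogeneous components which are homogeneous for a derivation of degree 0
-/

set_option autoImplicit false

namespace Pool.Agent.Helper14.D4

open Module Pool.Agent.Helper37.SD Pool.Agent.Helper20.TS Pool.Agent.Helper88.D4

variable {K : Type} [Field K] [Algebra ℂ K] {R : Subalgebra ℂ K} {ξ : Derivation ℂ K K}

/-- A common eigenvector of commuting operators which is fixed by one more operator. -/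
theorem exists_common' {V : Type*} [AddCommGroup V] [Module ℂ V] {r : ℕ}
    (L : Fin r → V →ₗ[ℂ] V) (hL : ∀ i j x, L i (L j x) = L j (L i x)) (P : V →ₗ[ℂ] V)
    (hP : ∀ i x, P (L i x) = L i (P x)) (W : Submodule ℂ V) (hfin : Module.Finite ℂ W)
    (hs : ∀ i, ∀ x ∈ W, L i x ∈ W) {x : V} (hx : x ∈ W) (hx0 : x ≠ 0) (hPx : P x = x) :
    ∃ x ∈ W, x ≠ 0 ∧ P x = x ∧ ∃ χ : Fin r → ℂ, ∀ i, L i x = χ i • x := by
  let W' : Submodule ℂ V := W ⊓ LinearMap.ker (P - LinearMap.id)
  have hmem : ∀ x, x ∈ W' ↔ x ∈ W ∧ P x = x := by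
    intro x
    show x ∈ W ∧ (P - (LinearMap.id : V →ₗ[ℂ] V)) x = 0 ↔ _
    rw [LinearMap.sub_apply, LinearMap.id_apply, sub_eq_zero]
  have hW' : W' ≠ ⊥ := by
    intro h
    have h1 : x ∈ W' := (hmem x).2 ⟨hx, hPx⟩
    rw [h, Submodule.mem_bot] at h1
    exact hx0 h1
  have hfin' : Module.Finite ℂ W' :=
    Module.Finite.of_injective (Submodule.inclusion (inf_le_left : W' ≤ W))
      (Submodule.inclusion_injective _)
  obtain ⟨y, hy, hy0, χ, hχ⟩ := exists_common L hL W' hfin' hW' (fun i x hx => by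
    rw [hmem] at hx ⊢
    exact ⟨hs _ x hx.1, by rw [hP, hx.2]⟩)
  exact ⟨y, ((hmem y).1 hy).1, hy0, ((hmem y).1 hy).2, χ, hχ⟩

theorem sum_app {ι : Type*} (s : Finset ι) (A : ι → Derivation ℂ K K) (x : K) :
    (∑ i ∈ s, A i) x = ∑ i ∈ s, A i x := by
  classical
  induction s using Finset.induction_on with
  | empty => rw [Finset.sum_empty, Finset.sum_empty, Derivation.zero_apply]
  | insert a s ha ih => rw [Finset.sum_insert ha, Finset.sum_insert ha, Derivation.add_apply, ih]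

section Nil

variable {N : Derivation ℂ K K}

/-- An eigenvalue of a locally nilpotent derivation is `0`. -/
theorem nil_eig (hnil : ∀ x ∈ R, ∃ n : ℕ, (N : K → K)^[n] x = 0) {x : K} (hx : x ∈ R)
    (hx0 : x ≠ 0) {ν : ℂ} (h : N x = ν • x) : ν = 0 := by
  have h2 : ∀ l : ℕ, (N : K → K)^[l] x = ν ^ l • x := by
    intro l
    induction l with
    | zero => simp
    | succ l ih =>
      rw [Function.iterate_succ_apply', ih, Derivation.map_smul, h, smul_smul, pow_succ]
  obtain ⟨l, hl⟩ := hnil x hx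
  rw [h2 l] at hl
  rcases smul_eq_zero.1 hl with h | h
  · by_contra h'
    exact pow_ne_zero l h' h
  · exact absurd h hx0

theorem nil_iter (hnil : ∀ x ∈ R, ∃ n : ℕ, (N : K → K)^[n] x = 0) (hN : Pres R N) {x : K}
    (hx : x ∈ R) (hx0 : x ≠ 0) {ν : ℂ} {n : ℕ}
    (hn : (((N : K →ₗ[ℂ] K) - ν • (1 : End ℂ K) : End ℂ K) ^ n) x = 0) : ν = 0 := by
  obtain ⟨j, h1, h2⟩ := exists_eig_of_iter (N : K →ₗ[ℂ] K) hx0 hn
  exact nil_eig hnil (iter_mem' hN ν hx j) h1 h2

theorem adR_nil (h : IsCone R ξ) (hN : Pres R N) (hc : ⁅ξ, N⁆ = 0)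
    (hnil : ∀ x ∈ R, ∃ n : ℕ, (N : K → K)^[n] x = 0)
    {c : ℝ} {D : derC R ξ c} (hD : D ≠ 0) {lam : ℂ} {n : ℕ}
    (hn : ((adR hN hc c - lam • (1 : End ℂ (derC R ξ c))) ^ n) D = 0) : lam = 0 := by
  classical
  obtain ⟨j, h1, h2⟩ := exists_eig_of_iter (adR hN hc c) hD hn
  generalize ((adR hN hc c - lam • (1 : End ℂ (derC R ξ c))) ^ j) D = E at h1 h2
  have h3 : ⁅N, (E : Derivation ℂ K K)⁆ = lam • (E : Derivation ℂ K K) := congrArg Subtype.val h2
  have h4 : (E : Derivation ℂ K K) ≠ 0 := fun h0 => h1 (Subtype.ext h0)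
  have h5 : ∃ s : ℕ, ∃ y ∈ R, (N : K → K)^[s] y = 0 ∧ (E : Derivation ℂ K K) y ≠ 0 := by
    by_contra hcon
    push Not at hcon
    refine h4 (der_eq_zero h.frac fun x hx => ?_)
    obtain ⟨s, hs⟩ := hnil x hx
    exact hcon s x hx hs
  obtain ⟨y, hy, hs, hEy⟩ := Nat.find_spec h5
  have hmin := fun s (h : s < Nat.find h5) => Nat.find_min h5 h
  have h6 : (E : Derivation ℂ K K) (N y) = 0 := by
    by_contra hne
    have hk : Nat.find h5 ≠ 0 := by
      intro h0
      rw [h0] at hs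
      have : y = 0 := hs
      exact hEy (by rw [this, map_zero])
    obtain ⟨m, hm⟩ := Nat.exists_eq_succ_of_ne_zero hk
    refine hmin m (by rw [hm]; exact Nat.lt_succ_self m) ⟨N y, hN y hy, ?_, hne⟩
    rw [hm, Function.iterate_succ_apply] at hs
    exact hs
  have h7 : N ((E : Derivation ℂ K K) y) = lam • (E : Derivation ℂ K K) y := by
    have h8 : ⁅N, (E : Derivation ℂ K K)⁆ y = lam • (E : Derivation ℂ K K) y := by rw [h3]; rfl
    rw [Derivation.commutator_apply, h6, sub_zero] at h8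
    exact h8
  exact nil_eig hnil (E.2.1 y hy) hEy h7

/-- The weight of a regular form for a locally nilpotent derivation is `0`. -/
theorem form_nil (h : IsCone R ξ) (hN : Pres R N) (hc : ⁅ξ, N⁆ = 0)
    (hnil : ∀ x ∈ R, ∃ n : ℕ, (N : K → K)^[n] x = 0)
    {ω : Form K} (hω : IsReg R ω) (h0 : ω ≠ 0) {χ : ℂ} (hχ : lieF N ω = χ • ω) : χ = 0 := by
  have h1 : ∃ D ∈ HD R ξ, ∃ E ∈ HD R ξ, ω D E ≠ 0 := by
    by_contra hcon
    push Not at hcon
    exact h0 (form_zero (span_hd h) hcon)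
  obtain ⟨D, ⟨hD, c, hDc⟩, E, ⟨hE, d, hEd⟩, hDE⟩ := h1
  have f1 := h.finite_derC c
  have f2 := h.finite_derC d
  let g1 : derC R ξ c →ₗ[ℂ] K :=
    { toFun := fun D => ω (D : Derivation ℂ K K) E
      map_add' := fun D D' => by
        show ω ((D : Derivation ℂ K K) + (D' : Derivation ℂ K K)) E = _
        rw [map_add]; rfl
      map_smul' := fun z D => form_smul_left ω z _ _ }
  obtain ⟨lam, D', hD', hg1⟩ := exists_gen (adR hN hc c) g1 (x := ⟨D, hD, hDc⟩) hDE
  let g2 : derC R ξ d →ₗ[ℂ] K :=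
    { toFun := fun E => ω (D' : Derivation ℂ K K) (E : Derivation ℂ K K)
      map_add' := fun E E' => by
        show ω (D' : Derivation ℂ K K) ((E : Derivation ℂ K K) + (E' : Derivation ℂ K K)) = _
        rw [map_add]
      map_smul' := fun z D => form_smul_right ω z _ _ }
  obtain ⟨mu, E', hE', hg2⟩ := exists_gen (adR hN hc d) g2 (x := ⟨E, hE, hEd⟩) hg1
  obtain ⟨a, ha⟩ := (Module.End.mem_maxGenEigenspace _ _ _).1 hD'
  obtain ⟨b, hb⟩ := (Module.End.mem_maxGenEigenspace _ _ _).1 hE'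
  have hD0 : D' ≠ 0 := by
    rintro rfl
    exact hg1 (by show ω 0 E = 0; rw [map_zero]; rfl)
  have hE0 : E' ≠ 0 := by
    rintro rfl
    exact hg2 (by show ω (D' : Derivation ℂ K K) 0 = 0; rw [map_zero])
  have hl := adR_nil h hN hc hnil hD0 ha
  have hm := adR_nil h hN hc hnil hE0 hb
  have key := leib_iter (V := derC R ξ c) (W := derC R ξ d) (U := K)
    (fun D E => ω (D : Derivation ℂ K K) (E : Derivation ℂ K K))
    (fun w => by show ω 0 _ = 0; rw [map_zero]; rfl)
    (fun v => by show ω _ 0 = 0; rw [map_zero])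
    (adR hN hc c - lam • (1 : End ℂ (derC R ξ c))) (adR hN hc d - mu • (1 : End ℂ (derC R ξ d)))
    ((N : K →ₗ[ℂ] K) - (χ + lam + mu) • (1 : End ℂ K))
    (fun D E => by
      have e1 : lieF N ω (D : Derivation ℂ K K) (E : Derivation ℂ K K) =
          χ • ω (D : Derivation ℂ K K) (E : Derivation ℂ K K) := by rw [hχ]; rfl
      rw [lieF_apply] at e1
      show N (ω (D : Derivation ℂ K K) (E : Derivation ℂ K K)) -
        (χ + lam + mu) • ω (D : Derivation ℂ K K) (E : Derivation ℂ K K) =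
        ω (⁅N, (D : Derivation ℂ K K)⁆ - lam • (D : Derivation ℂ K K)) (E : Derivation ℂ K K) +
        ω (D : Derivation ℂ K K) (⁅N, (E : Derivation ℂ K K)⁆ - mu • (E : Derivation ℂ K K))
      rw [map_sub, LinearMap.sub_apply, map_sub, form_smul_left, form_smul_right]
      simp only [add_smul]
      linear_combination e1)
    (a + b) a b D' E' rfl ha hb
  have hreg : ω (D' : Derivation ℂ K K) (E' : Derivation ℂ K K) ∈ R := hω.reg _ _ D'.2.1 E'.2.1
  have hn := nil_iter hnil hN hreg hg2 key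
  rw [hl, hm, add_zero, add_zero] at hn
  exact hn

end Nil

/-- The piece T1s. -/
theorem s_T1s : S_T1s := by
  intro K _ _ R ξ J a r H c hC hT E e hE hHE hnil ω k hω hcl hk hEω h0
  have h : IsCone R ξ := hC.toIsCone
  have hpres : ∀ i, Pres R (H i) := by
    intro i x hx
    have h1 : Submodule.span ℂ {y | y ∈ R ∧ ∃ m : Fin r → ℤ, IsW H m y} ≤
        (RS R).comap ((H i : Derivation ℂ K K) : K →ₗ[ℂ] K) := by
      refine Submodule.span_le.mpr ?_
      rintro y ⟨hy, m, hm⟩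
      show H i y ∈ R
      rw [hm i]
      exact R.smul_mem hy _
    exact h1 (hT.span x hx)
  have hcomm : ∀ i, ⁅ξ, H i⁆ = 0 := by
    intro i
    rw [hT.xi, sum_lie]
    refine Finset.sum_eq_zero fun j _ => ?_
    rw [smul_lie, hT.comm j i, smul_zero]
  have hspan : ∀ i, ∀ x ∈ R, x ∈ Submodule.span ℂ {y | y ∈ R ∧ ∃ m : ℤ, H i y = (m : ℂ) • y} := by
    intro i x hx
    refine Submodule.span_mono ?_ (hT.span x hx)
    rintro y ⟨hy, m, hm⟩
    exact ⟨hy, m i, hm i⟩
  have hξE : ⁅ξ, E⁆ = 0 := by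
    rw [hT.xi, sum_lie]
    refine Finset.sum_eq_zero fun j _ => ?_
    rw [smul_lie, hHE j, smul_zero]
  set N : Derivation ℂ K K := E - ∑ i, e i • H i with hNd
  have hN : Pres R N := by
    intro x hx
    have e1 : N x = E x - ∑ i, e i • H i x := by
      rw [hNd, Derivation.sub_apply, sum_app]
      rfl
    rw [e1]
    exact R.sub_mem (hE x hx) (R.sum_mem fun i _ => R.smul_mem (hpres i x hx) (e i))
  have hξN : ⁅ξ, N⁆ = 0 := by
    rw [hNd, lie_sub, hξE, lie_sum, zero_sub, neg_eq_zero]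
    refine Finset.sum_eq_zero fun j _ => ?_
    rw [lie_smul, hcomm j, smul_zero]
  have hst : ∀ i, ∀ η ∈ RCF R ξ k, lieF (H i) η ∈ RCF R ξ k := by
    intro i η hη
    exact ⟨lieF_reg hη.1 (hpres i), lieF_closed hη.1 hη.2.1 _, by
        rw [homForm_iff, lieF_comm (hcomm i), homForm_iff.1 hη.2.2, map_smul]⟩
  have hEH : ∀ i, ⁅E, H i⁆ = 0 := fun i => by rw [← lie_skew, hHE i, neg_zero]
  have hωR : ω ∈ RCF R ξ k := ⟨hω, hcl, hk⟩
  obtain ⟨η, hη, hη0, hηE, χ, hχ⟩ := exists_common' (fun i => lieF (H i))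
    (fun i j x => lieF_comm (hT.comm i j) x) (lieF E) (fun i x => lieF_comm (hEH i) x)
    (RCF R ξ k) (finite_rcf h k) hst hωR h0 (by
      have h1 := homForm_iff.1 hEω
      rw [h1, Complex.ofReal_one]
      exact one_smul ℂ ω)
  have hint : ∀ i, ∃ m : ℤ, χ i = m := fun i =>
    form_int h (hpres i) (hcomm i) (intEig_of_tor hT i) (hspan i) hη.1 hη0 (hχ i)
  choose m hm using hint
  refine ⟨η, m, hη.1, hη.2.1, hη0, fun i => ?_, ?_, ?_⟩
  · rw [homForm_iff, hχ i, hm i]
    push_cast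
    rfl
  · have e1 : lieF ξ η = (k : ℂ) • η := homForm_iff.1 hη.2.2
    have e2 : lieF ξ η = ∑ i, (c i : ℂ) • lieF (H i) η := by
      conv_lhs => rw [hT.xi]
      rw [lieF_sum]
      exact Finset.sum_congr rfl fun i _ => lieF_smulH _ _ _
    have e3 : ∑ i, (c i : ℂ) • lieF (H i) η = (∑ i, (c i : ℂ) * (m i : ℂ)) • η := by
      rw [Finset.sum_smul]
      refine Finset.sum_congr rfl fun i _ => ?_
      rw [hχ i, hm i, smul_smul]
    have e4 : ∃ D E, η D E ≠ 0 := by
      by_contra hcon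
      push Not at hcon
      exact hη0 (LinearMap.ext₂ fun D E => hcon D E)
    obtain ⟨D, E, hDE⟩ := e4
    have e5 : (∑ i, (c i : ℂ) * (m i : ℂ)) • η D E = (k : ℂ) • η D E := by
      have e7 : (∑ i, (c i : ℂ) * (m i : ℂ)) • η = (k : ℂ) • η := by
        rw [← e3, ← e2, e1]
      exact congrArg (fun θ : Form K => θ D E) e7
    have e6 : ((∑ i, c i * (m i : ℝ) : ℝ) : ℂ) = (k : ℂ) := by
      push_cast
      exact smul_left_injective ℂ hDE e5
    exact_mod_cast e6
  · have e1 : lieF N η = (1 - ∑ i, e i * (m i : ℂ)) • η := by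
      have e2 : lieF E η = lieF N η + ∑ i, e i • lieF (H i) η := by
        have e3 : E = N + ∑ i, e i • H i := by rw [hNd, sub_add_cancel]
        conv_lhs => rw [e3]
        rw [lieF_addH, lieF_sum]
        congr 1
        exact Finset.sum_congr rfl fun i _ => lieF_smulH _ _ _
      have e3 : ∑ i, e i • lieF (H i) η = (∑ i, e i * (m i : ℂ)) • η := by
        rw [Finset.sum_smul]
        refine Finset.sum_congr rfl fun i _ => ?_
        rw [hχ i, hm i, smul_smul]
      rw [hηE, e3] at e2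
      refine LinearMap.ext₂ fun D D' => ?_
      have e4 := congrArg (fun θ : Form K => θ D D') e2
      have e5 : η D D' = lieF N η D D' + (∑ i, e i * (m i : ℂ)) • η D D' := e4
      show lieF N η D D' = (1 - ∑ i, e i * (m i : ℂ)) • η D D'
      rw [sub_smul, one_smul]
      linear_combination -e5
    have e2 := form_nil h hN hξN hnil hη.1 hη0 e1
    exact (sub_eq_zero.1 e2).symm

end Pool.Agent.Helper14.D4
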